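import Pool.Agent.Helper43.PR.ShWa

/-!
Examples in the wedge case with an even index: the star operator as a symmetry.
-/

open Module MTPairs

namespace PR

open TR.W3 TR.Wdg

section Two

variable {K : Type*} [Field K] [CharZero K] [IsAlgClosed K] {n : ℕ}

/-- The symmetry `v ↦ c J v`. -/
noncomputable def cJ (hn : Odd n) (c : Kˣ) : Equiv.Perm (Ix (Fin (2 * n)) n → K) where
  toFun v := (c : K) • (Jw K n).mulVec v
  invFun v := -((c⁻¹ : Kˣ) : K) • (Jw K n).mulVec v
  left_inv v := by
    change -((c⁻¹ : Kˣ) : K) • (Jw K n).mulVec ((c : K) • (Jw K n).mulVec v) = v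
    rw [Matrix.mulVec_smul, Matrix.mulVec_mulVec, Jw_sq hn, smul_smul, Matrix.neg_mulVec,
      Matrix.one_mulVec, neg_mul, Units.inv_mul, neg_smul, one_smul, neg_neg]
  right_inv v := by
    change (c : K) • (Jw K n).mulVec (-((c⁻¹ : Kˣ) : K) • (Jw K n).mulVec v) = v
    rw [Matrix.mulVec_smul, Matrix.mulVec_mulVec, Jw_sq hn, smul_smul, Matrix.neg_mulVec,
      Matrix.one_mulVec, mul_neg, Units.mul_inv, neg_smul, one_smul, neg_neg]

omit [CharZero K] [IsAlgClosed K] in
lemma cJ_apply (hn : Odd n) (c : Kˣ) (v : Ix (Fin (2 * n)) n → K) :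
    cJ hn c v = (c : K) • (Jw K n).mulVec v := rfl

omit [CharZero K] [IsAlgClosed K] in
/-- The elements of the cyclic group. -/
lemma zp_cases (hn : Odd n) (c : Kˣ) {θ : Equiv.Perm (Ix (Fin (2 * n)) n → K)}
    (h : θ ∈ Subgroup.zpowers (cJ hn c)) :
    (∃ a : Kˣ, ∀ v, θ v = (a : K) • v) ∨ (∃ a : Kˣ, ∀ v, θ v = (a : K) • (Jw K n).mulVec v) := by
  let T : Subgroup (Equiv.Perm (Ix (Fin (2 * n)) n → K)) :=
    { carrier := {θ | (∃ a : Kˣ, ∀ v, θ v = (a : K) • v) ∨
        (∃ a : Kˣ, ∀ v, θ v = (a : K) • (Jw K n).mulVec v)}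
      one_mem' := Or.inl ⟨1, fun v => by simp⟩
      mul_mem' := by
        rintro θ θ' (⟨a, ha⟩ | ⟨a, ha⟩) (⟨b, hb⟩ | ⟨b, hb⟩)
        · left
          refine ⟨a * b, fun v => ?_⟩
          rw [Equiv.Perm.mul_apply, ha, hb, smul_smul, Units.val_mul]
        · right
          refine ⟨a * b, fun v => ?_⟩
          rw [Equiv.Perm.mul_apply, ha, hb, smul_smul, Units.val_mul]
        · right
          refine ⟨a * b, fun v => ?_⟩
          rw [Equiv.Perm.mul_apply, ha, hb, Matrix.mulVec_smul, smul_smul, Units.val_mul]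
        · left
          refine ⟨-(a * b), fun v => ?_⟩
          rw [Equiv.Perm.mul_apply, ha, hb, Matrix.mulVec_smul, Matrix.mulVec_mulVec, Jw_sq hn,
            smul_smul, Matrix.neg_mulVec, Matrix.one_mulVec, smul_neg, ← neg_smul, Units.val_neg,
            Units.val_mul]
      inv_mem' := by
        rintro θ (⟨a, ha⟩ | ⟨a, ha⟩)
        · left
          refine ⟨a⁻¹, fun v => ?_⟩
          rw [Equiv.Perm.inv_eq_iff_eq, ha, smul_smul, Units.mul_inv, one_smul]
        · right
          refine ⟨-a⁻¹, fun v => ?_⟩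
          rw [Equiv.Perm.inv_eq_iff_eq, ha, Matrix.mulVec_smul, Matrix.mulVec_mulVec, Jw_sq hn,
            smul_smul, Matrix.neg_mulVec, Matrix.one_mulVec, Units.val_neg, mul_neg,
            Units.mul_inv, neg_smul, one_smul, neg_neg] }
  have hle : Subgroup.zpowers (cJ hn c) ≤ T := by
    rw [Subgroup.zpowers_le]
    exact Or.inr ⟨c, fun v => rfl⟩
  exact hle h

omit [CharZero K] in
/-- Generators of order `N`. -/
lemma exists_gen [CharZero K] (hn : Odd n) (h3 : 3 ≤ n) {N : ℕ} (hN : 0 < N) (hev : Even N) :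
    ∃ c : Kˣ, Nat.card (Subgroup.zpowers (cJ (K := K) hn c)) = N := by
  obtain ⟨M, hM⟩ := hev
  have hM0 : 0 < M := by omega
  have : NeZero M := ⟨hM0.ne'⟩
  have : NeZero (M : K) := ⟨by exact_mod_cast hM0.ne'⟩
  obtain ⟨η, hη⟩ := HasEnoughRootsOfUnity.exists_primitiveRoot K M
  have hη0 : η ≠ 0 := hη.ne_zero hM0.ne'
  obtain ⟨c, hc⟩ := IsAlgClosed.exists_pow_nat_eq (-η) (n := 2) (by norm_num)
  have hc0 : c ≠ 0 := by
    rintro rfl
    rw [zero_pow (by norm_num)] at hc
    exact hη0 (neg_eq_zero.mp hc.symm)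
  refine ⟨Units.mk0 c hc0, ?_⟩
  rw [Nat.card_zpowers]
  set a := cJ (K := K) hn (Units.mk0 c hc0) with ha
  have ha1 : ∀ v, a v = c • (Jw K n).mulVec v := fun v => rfl
  have ha2 : ∀ v, (a ^ 2) v = η • v := by
    intro v
    rw [pow_two, Equiv.Perm.mul_apply, ha1, ha1, Matrix.mulVec_smul, Matrix.mulVec_mulVec,
      Jw_sq hn, smul_smul, Matrix.neg_mulVec, Matrix.one_mulVec, ← pow_two, hc, neg_smul, smul_neg,
      neg_neg]
  have ha3 : ∀ j v, (a ^ (2 * j)) v = η ^ j • v := by
    intro j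
    induction j with
    | zero => intro v; simp
    | succ j ih =>
      intro v
      rw [mul_add, mul_one, pow_add, Equiv.Perm.mul_apply, ha2, ih, smul_smul, pow_succ]
  apply Nat.dvd_antisymm
  · apply orderOf_dvd_of_pow_eq_one
    ext1 v
    rw [hM, ← two_mul, ha3, hη.pow_eq_one, one_smul]
    rfl
  · have h1 := pow_orderOf_eq_one a
    obtain ⟨S, -, hS⟩ : ∃ S : Finset (Fin (2 * n)), S ⊆ Finset.univ ∧ S.card = n :=
      Finset.exists_subset_card_eq (by rw [Finset.card_univ, Fintype.card_fin]; omega)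
    set I0 : Ix (Fin (2 * n)) n := ⟨S, hS⟩ with hI0
    rcases Nat.even_or_odd (orderOf a) with ⟨j, hj⟩ | ⟨j, hj⟩
    · have h2 : η ^ j = 1 := by
        rw [hj, ← two_mul] at h1
        have h3 := ha3 j (Pi.single I0 1)
        rw [h1, Equiv.Perm.one_apply] at h3
        have h4 := congrFun h3 I0
        rw [Pi.smul_apply, Pi.single_eq_same, smul_eq_mul, mul_one] at h4
        exact h4.symm
      have h3 := hη.dvd_of_pow_eq_one j h2
      rw [hj, hM, ← two_mul, ← two_mul]
      exact Nat.mul_dvd_mul_left 2 h3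
    · exfalso
      rw [hj, pow_add, pow_one] at h1
      have h2 : (a ^ (2 * j) * a) (Pi.single I0 1) = Pi.single I0 1 := by
        rw [h1, Equiv.Perm.one_apply]
      rw [Equiv.Perm.mul_apply, ha3, ha1] at h2
      have h4 := congrFun h2 I0
      rw [Pi.smul_apply, Pi.smul_apply, Pi.single_eq_same, Matrix.mulVec_single_one] at h4
      have h5 : (Jw K n).col I0 I0 = 0 := by
        change Jw K n I0 I0 = 0
        rw [Jw, if_neg]
        intro h6
        have h7 : I0.1 = (I0.1)ᶜ := congrArg Subtype.val h6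
        obtain ⟨b, hb⟩ : (I0.1).Nonempty := by
          rw [← Finset.card_pos, I0.2]; omega
        have h8 := hb
        rw [h7, Finset.mem_compl] at h8
        exact h8 hb
      rw [h5, smul_zero, smul_zero] at h4
      exact zero_ne_one h4

/-- The second case: the symmetries. -/
theorem wedge_two_gal (hn : Odd n) (h3 : 3 ≤ n) (x : Fin (2 * n) → ℚ) (hx : Symm x)
    (hx1 : ∑ i, |x i| ≤ 1) {N : ℕ} (hN : 0 < N) (hev : Even N) :
    ∃ Γ : Subgroup (Equiv.Perm (Ix (Fin (2 * n)) n → K)), IsGalPair Γ (Jw K n) (Gw K n) ∧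
      HasSlopes Γ (Gw K n) (M K n (⟨0, by omega⟩ : Fin (2 * n)) ⟨0, by omega⟩)
        ((Finset.powersetCard n Finset.univ).val.map (fun I => 1 / 2 + ∑ i ∈ I, x i)) ∧
      HasIndex Γ (Gw K n) (M K n (⟨0, by omega⟩ : Fin (2 * n)) ⟨0, by omega⟩) N := by
  classical
  rw [← map_slopes]
  obtain ⟨e, he⟩ := hx
  have hx0 : ∑ i, x i = 0 := by
    have h1 : ∑ i, x (e i) = ∑ i, x i := Equiv.sum_comp e x
    simp only [he, Finset.sum_neg_distrib] at h1
    linarith
  set i0 : Fin (2 * n) := ⟨0, by omega⟩ with hi0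
  obtain ⟨c, hc⟩ := exists_gen (K := K) hn h3 hN hev
  obtain ⟨ge, hge, hgee⟩ := Gw_perm (K := K) e
  -- the matrix of the slopes
  set D : Matrix (Ix (Fin (2 * n)) n) (Ix (Fin (2 * n)) n) K :=
    Matrix.diagonal (fun I : Ix (Fin (2 * n)) n => ((1 / 2 + ∑ i ∈ I.1, x i : ℚ) : K)) with hD
  have hD1 : D = ((1 / 2 : ℚ) : K) • 1 + ∑ i, (x i : K) • M K n i i := diag_eq _ _
  have hDg : D * (ge : Matrix _ _ K) =
      (ge : Matrix _ _ K) * (((1 / 2 : ℚ) : K) • 1 - ∑ i, (x i : K) • M K n i i) := by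
    have h1 : (∑ i, (x i : K) • M K n i i) * (ge : Matrix _ _ K) =
        -((ge : Matrix _ _ K) * ∑ i, (x i : K) • M K n i i) := by
      have h2 := Equiv.sum_comp e (fun i => (x i : K) • M K n i i)
      rw [← h2, Finset.sum_mul]
      have h3 : ∀ i, (x (e i) : K) • M K n (e i) (e i) * (ge : Matrix _ _ K) =
          -((ge : Matrix _ _ K) * ((x i : K) • M K n i i)) := by
        intro i
        rw [smul_mul_assoc, hgee, mul_smul_comm, he]
        push_cast
        rw [neg_smul]
      rw [Finset.sum_congr rfl (fun i _ => h3 i), Finset.sum_neg_distrib, ← Finset.mul_sum, h2]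
    rw [hD1, add_mul, mul_sub, smul_mul_assoc, one_mul, mul_smul_comm, mul_one, sub_eq_add_neg,
      h1]
  have hDJ : (((1 / 2 : ℚ) : K) • 1 - ∑ i, (x i : K) • M K n i i) * Jw K n = Jw K n * D := by
    rw [hD1, sub_mul, mul_add, smul_mul_assoc, one_mul, mul_smul_comm, mul_one, sub_eq_add_neg]
    congr 1
    rw [Finset.sum_mul, Finset.mul_sum, ← Finset.sum_neg_distrib]
    have h1 : ∀ i, -((x i : K) • M K n i i * Jw K n) =
        Jw K n * ((x i : K) • M K n i i) - (x i : K) • Jw K n := by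
      intro i
      rw [smul_mul_assoc, M_Jw, mul_smul_comm, smul_sub]
      abel
    rw [Finset.sum_congr rfl (fun i _ => h1 i), Finset.sum_sub_distrib, ← Finset.sum_smul]
    have h2 : ∑ i, (x i : K) = 0 := by
      have h3 : ((∑ i, x i : ℚ) : K) = 0 := by rw [hx0]; simp
      push_cast at h3
      exact h3
    rw [h2, zero_smul, sub_zero]
  have hsemi : ∀ θ ∈ Subgroup.zpowers (cJ (K := K) hn c), IsSemilinear θ := by
    intro θ hθ
    rcases zp_cases hn c hθ with ⟨a, ha⟩ | ⟨a, ha⟩
    · refine ⟨RingEquiv.refl K, fun v w => ?_, fun b v => ?_⟩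
      · rw [ha, ha, ha, smul_add]
      · rw [ha, ha, RingEquiv.refl_apply, smul_comm]
    · refine ⟨RingEquiv.refl K, fun v w => ?_, fun b v => ?_⟩
      · rw [ha, ha, ha, Matrix.mulVec_add, smul_add]
      · rw [ha, ha, RingEquiv.refl_apply, Matrix.mulVec_smul, smul_comm]
  refine ⟨Subgroup.zpowers (cJ hn c), ⟨Gw_pair hn, hsemi, ?_⟩, ?_, ?_⟩
  · intro θ hθ g hg
    rcases zp_cases hn c hθ with ⟨a, ha⟩ | ⟨a, ha⟩
    · exact ⟨g, hg, fun v => by rw [ha, ha, Matrix.mulVec_smul]⟩
    · refine ⟨_, Gw_norm hn hg, fun v => ?_⟩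
      rw [ha, ha, Matrix.mulVec_smul]
      congr 1
      have h1 : ((st K hn * g * (st K hn)⁻¹ : Matrix.GeneralLinearGroup (Ix (Fin (2 * n)) n) K) :
          Matrix (Ix (Fin (2 * n)) n) (Ix (Fin (2 * n)) n) K) =
          Jw K n * (g : Matrix _ _ K) * (-Jw K n) := rfl
      rw [h1, Matrix.mulVec_mulVec, Matrix.mulVec_mulVec, mul_assoc, neg_mul, Jw_sq hn, neg_neg,
        mul_one]
  · have hr : 0 ≤ 1 - ∑ i, |x i| := by linarith
    have habs : ∀ i, max (x i) 0 + max (-x i) 0 = |x i| := by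
      intro i
      rcases le_total 0 (x i) with h | h
      · rw [abs_of_nonneg h, max_eq_left h, max_eq_right (by linarith)]; ring
      · rw [abs_of_nonpos h, max_eq_right h, max_eq_left (by linarith)]; ring
    have hsub : ∀ i, max (x i) 0 - max (-x i) 0 = x i := by
      intro i
      rcases le_total 0 (x i) with h | h
      · rw [max_eq_left h, max_eq_right (by linarith)]; ring
      · rw [max_eq_right h, max_eq_left (by linarith)]; ring
    refine hasSlopes_diag (κ := Fin (2 * n) × Bool)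
      (fun k => (if k.2 then max (x k.1) 0 else max (-x k.1) 0) +
        (if k.1 = i0 then (1 - ∑ i, |x i|) / 2 else 0)) ?_ ?_
      (fun k I => if k.2 then k.1 ∈ I.1 else k.1 ∉ I.1) ?_ _ ?_ hsemi ?_
    · rintro ⟨i, b⟩
      have h1 : (0 : ℚ) ≤ if i = i0 then (1 - ∑ i, |x i|) / 2 else 0 := by
        split_ifs
        · linarith
        · exact le_rfl
      cases b with
      | true =>
        have h2 : (0 : ℚ) ≤ max (x i) 0 := le_max_right _ _
        simpa using add_nonneg h2 h1
      | false =>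
        have h2 : (0 : ℚ) ≤ max (-x i) 0 := le_max_right _ _
        simpa using add_nonneg h2 h1
    · rw [Fintype.sum_prod_type]
      simp only [Fintype.sum_bool, if_true, Bool.false_eq_true, if_false]
      have h1 : ∀ i, max (x i) 0 + (if i = i0 then (1 - ∑ i, |x i|) / 2 else 0) +
          (max (-x i) 0 + (if i = i0 then (1 - ∑ i, |x i|) / 2 else 0)) =
          |x i| + if i = i0 then (1 - ∑ i, |x i|) else 0 := by
        intro i
        rw [← habs i]
        split_ifs <;> ring
      rw [Finset.sum_congr rfl (fun i _ => h1 i), Finset.sum_add_distrib, Finset.sum_ite_eq',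
        if_pos (Finset.mem_univ _)]
      ring
    · rintro ⟨i, b⟩ _
      obtain ⟨g, hg, h⟩ := Gw_perm (K := K) (Equiv.swap i0 i)
      have h1 := h i0
      rw [Equiv.swap_apply_left] at h1
      cases b with
      | true =>
        refine ⟨1, Subgroup.one_mem _, g, hg, fun v => ?_⟩
        have h2 : (Matrix.diagonal (fun I : Ix (Fin (2 * n)) n =>
            if (if ((i, true) : Fin (2 * n) × Bool).2 = true then i ∈ I.1 else i ∉ I.1) then
              (1 : K) else 0)) = M K n i i := by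
          rw [M_same]; simp
        rw [h2, Equiv.Perm.one_apply, Equiv.Perm.one_apply, Matrix.mulVec_mulVec,
          Matrix.mulVec_mulVec, h1]
      | false =>
        refine ⟨cJ hn c, Subgroup.mem_zpowers _, g, hg, fun v => ?_⟩
        have h2 : (Matrix.diagonal (fun I : Ix (Fin (2 * n)) n =>
            if (if ((i, false) : Fin (2 * n) × Bool).2 = true then i ∈ I.1 else i ∉ I.1) then
              (1 : K) else 0)) = 1 - M K n i i := by
          rw [M_same, ← Matrix.diagonal_one, Matrix.diagonal_sub]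
          congr 1
          funext I
          by_cases hI : i ∈ I.1 <;> simp [hI]
        rw [h2, cJ_apply, cJ_apply, Matrix.mulVec_smul, Matrix.mulVec_smul, Matrix.mulVec_smul]
        congr 1
        rw [Matrix.mulVec_mulVec, Matrix.mulVec_mulVec, Matrix.mulVec_mulVec,
          Matrix.mulVec_mulVec]
        congr 1
        have h3 := M_Jw (K := K) (n := n) i0
        rw [sub_mul, one_mul, h1, sub_mul, mul_assoc (g : Matrix _ _ K) (M K n i0 i0), h3,
          mul_sub, ← mul_assoc]
        abel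
    · intro I
      rw [Fintype.sum_prod_type]
      simp only [Fintype.sum_bool, if_true, Bool.false_eq_true, if_false]
      have h1 : ∀ i, ((if i ∈ I.1 then max (x i) 0 +
          (if i = i0 then (1 - ∑ i, |x i|) / 2 else 0) else 0) +
          (if i ∉ I.1 then max (-x i) 0 +
          (if i = i0 then (1 - ∑ i, |x i|) / 2 else 0) else 0)) =
          (|x i| - x i) / 2 + (if i ∈ I.1 then x i else 0) +
            (if i = i0 then (1 - ∑ i, |x i|) / 2 else 0) := by
        intro i
        have h2 := habs i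
        have h3 := hsub i
        by_cases hI : i ∈ I.1
        · simp only [hI, if_true, not_true_eq_false, if_false]
          linarith
        · simp only [hI, if_true, not_false_eq_true, if_false]
          linarith
      rw [Finset.sum_congr rfl (fun i _ => h1 i), Finset.sum_add_distrib, Finset.sum_add_distrib,
        Finset.sum_ite_eq', if_pos (Finset.mem_univ _), ← Finset.sum_div, Finset.sum_sub_distrib,
        hx0, Finset.sum_ite_mem_eq]
      ring
    · intro θ hθ
      rcases zp_cases hn c hθ with ⟨a, ha⟩ | ⟨a, ha⟩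
      · refine ⟨1, Subgroup.one_mem _, fun v => ?_⟩
        rw [Units.val_one, Matrix.one_mulVec, Matrix.one_mulVec, ha, ha, Matrix.mulVec_smul]
      · refine ⟨ge, hge, fun v => ?_⟩
        change D.mulVec ((ge : Matrix _ _ K).mulVec (θ v)) =
          (ge : Matrix _ _ K).mulVec (θ (D.mulVec v))
        rw [ha, ha, Matrix.mulVec_smul, Matrix.mulVec_smul, Matrix.mulVec_smul]
        congr 1
        rw [Matrix.mulVec_mulVec, Matrix.mulVec_mulVec, Matrix.mulVec_mulVec,
          Matrix.mulVec_mulVec]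
        congr 1
        rw [hDg, mul_assoc, hDJ, mul_assoc]
  · refine ⟨⊥, bot_le, ?_, ?_⟩
    · rw [Subgroup.relIndex_bot_left, hc]
    · intro θ hθ
      rw [Subgroup.mem_bot] at hθ
      refine ⟨1, Subgroup.one_mem _, fun v => ?_⟩
      rw [hθ, Units.val_one, Matrix.one_mulVec, Matrix.one_mulVec]
      rfl

/-- The second case. -/
theorem wedge_two (hn : Odd n) (h3 : 3 ≤ n) (x : Fin (2 * n) → ℚ) (hx : Symm x)
    (hx1 : ∑ i, |x i| ≤ 1) {N : ℕ} (hN : 0 < N) (hev : Even N) :
    Bad K ((Finset.powersetCard n Finset.univ).val.map (fun I => 1 / 2 + ∑ i ∈ I, x i)) N := by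
  obtain ⟨Γ, h1, h2, h4⟩ := wedge_two_gal (K := K) hn h3 x hx hx1 hN hev
  exact ⟨Ix (Fin (2 * n)) n, inferInstance, inferInstance, Γ, Jw K n, Gw K n, _, h1, Gw_irr,
    Gw_cochar (Or.inl ⟨_, rfl⟩), h2, h4, Gw_not hn h3⟩

end Two

end PR
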