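import Pool.Agent.Helper27.PR.SDefs
import Pool.Agent.Helper43.PR.ShWb

/-!
The examples in the wedge case are strong pairs.
-/

open Module MTPairs

namespace PR

/-- Strong pairs from the generation by the conjugates under the group. -/
lemma strong_mk {K : Type*} [Field K] {m : Type*} [Fintype m] [DecidableEq m]
    {Γ : Subgroup (Equiv.Perm (m → K))} {J : Matrix m m K}
    {G : Subgroup (Matrix.GeneralLinearGroup m K)} {π : Matrix m m K} (h : IsGalPair Γ J G)
    (hπ : IsCochar G π)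
    (hgen : ∀ H : Subgroup (Matrix.GeneralLinearGroup m K), ZariskiClosed H →
      (∀ P : Matrix m m K, (∃ g ∈ G, P * (g : Matrix m m K) = (g : Matrix m m K) * π) →
        IsCochar H P) → G ≤ H) : IsStrongMTPair Γ J G π where
  skew := h.skew
  det := h.det
  sim := h.sim
  closed := h.closed
  semi := h.semi
  norm := h.norm
  coch := hπ
  gen H hH hP := hgen H hH fun P ⟨g, hg, e⟩ => hP P ⟨1, Γ.one_mem, g, hg, fun v => by
    rw [Equiv.Perm.one_apply, Equiv.Perm.one_apply, Matrix.mulVec_mulVec, Matrix.mulVec_mulVec,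
      e]⟩

open TR.W3 TR.Wdg

variable {K : Type*} [Field K] [CharZero K] {n : ℕ}

/-- The group of the middle exterior power is generated by the conjugates of one cocharacter. -/
lemma Gw_gen (i0 : Fin (2 * n)) :
    ∀ H : Subgroup (Matrix.GeneralLinearGroup (Ix (Fin (2 * n)) n) K), ZariskiClosed H →
      (∀ P : Matrix (Ix (Fin (2 * n)) n) (Ix (Fin (2 * n)) n) K,
        (∃ g ∈ Gw K n, P * (g : Matrix _ _ K) = (g : Matrix _ _ K) * M K n i0 i0) →
        IsCochar H P) → Gw K n ≤ H := by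
  intro H hH h
  apply GenG_le hH
  rintro P (⟨i, rfl⟩ | ⟨i, j, hij, rfl⟩)
  · obtain ⟨g, hg, h1⟩ := Gw_perm (K := K) (Equiv.swap i0 i)
    have h2 := h1 i0
    rw [Equiv.swap_apply_left] at h2
    exact h _ ⟨g, hg, h2⟩
  · obtain ⟨g, hg, h1⟩ := Gw_perm (K := K) (Equiv.swap i0 i)
    have h2 := h1 i0
    rw [Equiv.swap_apply_left] at h2
    refine h _ ⟨(un K n hij)⁻¹ * g, Subgroup.mul_mem _ (Subgroup.inv_mem _ (un_mem hij)) hg, ?_⟩
    have e1 : (((un K n hij)⁻¹ * g : Matrix.GeneralLinearGroup (Ix (Fin (2 * n)) n) K) :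
        Matrix (Ix (Fin (2 * n)) n) (Ix (Fin (2 * n)) n) K) =
        (1 - M K n i j) * (g : Matrix _ _ K) := rfl
    have e2 : M K n i i * M K n i j = M K n i j := M_diag_mul i j
    have e3 : M K n i j * M K n i i = 0 := M_mul_diag hij
    have e4 : M K n i j * M K n i j = 0 := M_sq hij
    have e5 : (M K n i i + M K n i j) * (1 - M K n i j) = (1 - M K n i j) * M K n i i := by
      calc (M K n i i + M K n i j) * (1 - M K n i j) =
          M K n i i + M K n i j - M K n i i * M K n i j - M K n i j * M K n i j := by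
            noncomm_ring
        _ = M K n i i := by rw [e2, e4]; abel
        _ = (1 - M K n i j) * M K n i i := by rw [sub_mul, one_mul, e3, sub_zero]
    rw [e1, ← mul_assoc, e5, mul_assoc, h2, mul_assoc]

/-- **Strong examples with scalars as symmetries.** -/
theorem bad_scalarsS {K : Type*} [Field K] [CharZero K] [IsAlgClosed K] {m : Type} [Fintype m]
    [DecidableEq m] [Nonempty m] {J : Matrix m m K}
    {G : Subgroup (Matrix.GeneralLinearGroup m K)} {π : Matrix m m K} (hG : IsMTPair J G)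
    (hirr : IsIrr G) (hπ : IsCochar G π)
    (hgen : ∀ H : Subgroup (Matrix.GeneralLinearGroup m K), ZariskiClosed H →
      (∀ P : Matrix m m K, (∃ g ∈ G, P * (g : Matrix m m K) = (g : Matrix m m K) * π) →
        IsCochar H P) → G ≤ H)
    {κ : Type*} [Fintype κ] (w : κ → ℚ)
    (hw : ∀ k, 0 ≤ w k) (hw1 : ∑ k, w k = 1) (S : κ → m → Prop) [∀ k i, Decidable (S k i)]
    (hconj : ∀ k, 0 < w k → ∃ g ∈ G,
      Matrix.diagonal (fun i => if S k i then (1 : K) else 0) * (g : Matrix m m K) =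
        (g : Matrix m m K) * π)
    (d : m → ℚ) (hd : ∀ i, d i = ∑ k, if S k i then w k else 0)
    (hnot : ∃ g : Matrix.GeneralLinearGroup m K,
      (∃ c : K, (g : Matrix m m K).transpose * J * (g : Matrix m m K) = c • J) ∧ g ∉ G)
    {N : ℕ} (hN : 0 < N) : BadS K (Finset.univ.val.map d) N := by
  refine ⟨m, inferInstance, inferInstance, scal K m N, J, G, π,
    strong_mk ⟨hG, semi_scal, ?_⟩ hπ hgen, hirr, ?_, ?_, hnot⟩
  · intro θ hθ g hg
    obtain ⟨ζ, -, h⟩ := mem_scal.mp hθ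
    exact ⟨g, hg, fun v => by rw [h, h, Matrix.mulVec_smul]⟩
  · refine hasSlopes_diag w hw hw1 S ?_ d hd semi_scal ?_
    · intro k hk
      obtain ⟨g, hg, h⟩ := hconj k hk
      refine ⟨1, Subgroup.one_mem _, g, hg, fun v => ?_⟩
      rw [Equiv.Perm.one_apply, Equiv.Perm.one_apply, Matrix.mulVec_mulVec,
        Matrix.mulVec_mulVec, h]
    · intro θ hθ
      obtain ⟨ζ, -, h⟩ := mem_scal.mp hθ
      refine ⟨1, Subgroup.one_mem _, fun v => ?_⟩
      rw [Units.val_one, Matrix.one_mulVec, Matrix.one_mulVec, h, h, Matrix.mulVec_smul]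
  · refine ⟨⊥, bot_le, ?_, ?_⟩
    · rw [Subgroup.relIndex_bot_left, card_scal hN]
    · intro θ hθ
      rw [Subgroup.mem_bot] at hθ
      refine ⟨1, Subgroup.one_mem _, fun v => ?_⟩
      rw [hθ, Units.val_one, Matrix.one_mulVec, Matrix.one_mulVec]
      rfl

/-- The first case, strong form. -/
theorem wedge_oneS [IsAlgClosed K] (hn : Odd n) (h3 : 3 ≤ n) (x : Fin (2 * n) → ℚ)
    (hx : ∀ i, 0 ≤ x i) (hx1 : ∑ i, x i = 1) {N : ℕ} (hN : 0 < N) :
    BadS K ((Finset.powersetCard n Finset.univ).val.map (fun I => ∑ i ∈ I, x i)) N := by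
  classical
  rw [← map_slopes]
  set i0 : Fin (2 * n) := ⟨0, by omega⟩
  have hne : Nonempty (Ix (Fin (2 * n)) n) := by
    obtain ⟨S, -, hS⟩ : ∃ S : Finset (Fin (2 * n)), S ⊆ Finset.univ ∧ S.card = n :=
      Finset.exists_subset_card_eq (by rw [Finset.card_univ, Fintype.card_fin]; omega)
    exact ⟨⟨S, hS⟩⟩
  refine bad_scalarsS (Gw_pair hn) Gw_irr (Gw_cochar (Or.inl ⟨i0, rfl⟩)) (Gw_gen i0) x hx hx1
    (fun i I => i ∈ I.1) ?_ _ ?_ (Gw_not hn h3) hN
  · intro i _
    obtain ⟨g, hg, h⟩ := Gw_perm (K := K) (Equiv.swap i0 i)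
    refine ⟨g, hg, ?_⟩
    have h1 := h i0
    rw [Equiv.swap_apply_left] at h1
    rw [← M_same]
    exact h1
  · intro I
    rw [← Finset.sum_ite_mem_eq]

/-- The second case, strong form. -/
theorem wedge_twoS [IsAlgClosed K] (hn : Odd n) (h3 : 3 ≤ n) (x : Fin (2 * n) → ℚ)
    (hx : Symm x) (hx1 : ∑ i, |x i| ≤ 1) {N : ℕ} (hN : 0 < N) (hev : Even N) :
    BadS K ((Finset.powersetCard n Finset.univ).val.map (fun I => 1 / 2 + ∑ i ∈ I, x i)) N := by
  obtain ⟨Γ, h1, h2, h4⟩ := wedge_two_gal (K := K) hn h3 x hx hx1 hN hev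
  exact ⟨Ix (Fin (2 * n)) n, inferInstance, inferInstance, Γ, Jw K n, Gw K n, _,
    strong_mk h1 (Gw_cochar (Or.inl ⟨_, rfl⟩)) (Gw_gen _), Gw_irr, h2, h4, Gw_not hn h3⟩

end PR
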