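import Pool.Agent.Helper21.TR.SL6
import Pool.Agent.Helper14.TR.TwoLengths

/-!
Simply laced systems and systems with two root lengths: the structures behind the classification.
-/

set_option linter.unusedSectionVars false

open TR TR.SL

namespace PR

variable {K : Type*} [Field K] [CharZero K] {M : Type*} [AddCommGroup M] [Module K M]
  {B : LinearMap.BilinForm K M} {s : M →ₗ[K] K} {Φ X : Finset M}

/-- The two types of simply laced systems. -/
theorem sl_dich (h : SL B s Φ X) {i : M} (hi : i ∈ Φ) (hs : s i = 2) :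
    (∃ x0 ∈ h.Xp, i ∈ h.R x0 ∧ (∀ a ∈ h.P, ∀ b ∈ h.P, a ≠ b → B a b = 1) ∧
      h.P.card + 1 = 2 * (h.R x0).card ∧ Odd (h.R x0).card) ∨
    (∃ hB : SLB B s Φ X, ∃ x0 ∈ hB.Xp, (hB.R x0).card % 4 = 1 ∧ 5 ≤ (hB.R x0).card) := by
  classical
  have hiP : i ∈ h.P := h.mem_P.mpr ⟨hi, hs⟩
  obtain ⟨x, A, D⟩ := h.exists_blk hi hs
  have hxp : x ∈ h.Xp := h.mem_Xp.mpr ⟨D.hx, D.sx1⟩
  have hRpos : 0 < (h.R x).card := Finset.card_pos.mpr ⟨i, D.i_mem_R⟩
  by_cases hno : ∀ g c, ¬ D.Bad g c
  · left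
    have hP : h.P.card + 1 = 2 * (h.R x).card := D.P_of_noBad hno
    have hadj : ∀ a ∈ h.P, ∀ b ∈ h.P, a ≠ b → B a b = 1 := by
      intro a ha b hb hab
      rw [h.mem_P] at ha hb
      obtain ⟨y, A', D'⟩ := h.exists_blk ha.1 ha.2
      by_cases hno' : ∀ g c, ¬ D'.Bad g c
      · rw [h.symm]
        exact D'.caseA hno' hb.1 hb.2 (Ne.symm hab)
      · exfalso
        push Not at hno'
        obtain ⟨g, c, hb'⟩ := hno'
        have h1 : h.P.card = 2 * (h.R y).card := D'.P_of_bad hb'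
        have h2 := h.card_R D.hx D'.hx D.sx1 D'.sx1
        omega
    have hA : (h.R x).card = A.card := D.caseA_card hno
    exact ⟨x, hxp, D.i_mem_R, hadj, hP, by rw [hA]; exact D.odd⟩
  · right
    push Not at hno
    obtain ⟨g, c, hbad⟩ := hno
    have hP : h.P.card = 2 * (h.R x).card := D.P_of_bad hbad
    have hB : SLB B s Φ X :=
      { toSL := h
        ex := by
          intro a ha sa
          obtain ⟨y, A', D'⟩ := h.exists_blk ha sa
          by_cases hno' : ∀ g c, ¬ D'.Bad g c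
          · exfalso
            have h1 : h.P.card + 1 = 2 * (h.R y).card := D'.P_of_noBad hno'
            have h2 := h.card_R D.hx D'.hx D.sx1 D'.sx1
            omega
          · push Not at hno'
            obtain ⟨g', c', hb'⟩ := hno'
            obtain ⟨j1, j2, j3, j4, j5⟩ := D'.bad_j hb'
            exact ⟨_, j1, j2, j4, by rw [h.symm]; exact j3⟩
        un := by
          intro a ha sa b hb c hc sb sc _ _ hab hac
          obtain ⟨y, A', D'⟩ := h.exists_blk ha sa
          obtain ⟨g1, c1, hb1, e1⟩ := D'.orth_bad hb sb hab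
          obtain ⟨g2, c2, hb2, e2⟩ := D'.orth_bad hc sc hac
          rw [e1, e2]
          exact D'.caseB_unique hb1 hb2
        ca := by
          intro y hy sy
          rw [hP, h.card_R D.hx hy D.sx1 sy] }
    have hcard := D.caseB_card hbad
    have hodd := D.odd
    have hg : g ∈ (h.R x).erase i := D.mem_Re.mpr hbad.1
    have h2 : 2 ≤ (h.R x).card := by
      have h3 := Finset.card_pos.mpr ⟨g, hg⟩
      rw [Finset.card_erase_of_mem D.i_mem_R] at h3
      have : (h.R x).card = (D.R x).card := rfl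
      omega
    have hcard' : (h.R x).card + 1 = 2 * A.card := hcard
    obtain ⟨k, hk⟩ := hodd
    refine ⟨hB, x, hxp, ?_, ?_⟩
    · change (h.R x).card % 4 = 1
      omega
    · change 5 ≤ (h.R x).card
      omega

/-- There is a root of value two. -/
lemma sl_exists (h : SL B s Φ X) (hX : X.Nonempty) (hspan : ∀ m : M, (∀ a ∈ Φ, B m a = 0) → m = 0) :
    ∃ i ∈ Φ, s i = 2 := by
  obtain ⟨x, hx⟩ := hX
  by_contra! hcon
  -- all roots have value zero, hence there are no roots
  have h0 : ∀ a ∈ Φ, s a = 0 := by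
    intro a ha
    rcases h.s_root ha with h1 | h1 | h1
    · exact h1
    · exact absurd h1 (hcon a ha)
    · exact absurd (by rw [map_neg, h1, neg_neg]) (hcon (-a) (h.neg a ha))
  have hx0 : x = 0 := by
    apply hspan
    intro a ha
    exfalso
    obtain ⟨b, hb, hb2, -⟩ := h.hit a ha (h0 a ha)
    exact hcon b hb hb2
  have h1 := h.sx x hx
  rw [hx0, map_zero] at h1
  rcases h1 with h1 | h1 <;> norm_num at h1

variable [DecidableEq M] {ΦL ΦS : Finset M}

open Classical in
/-- The two types of systems with two root lengths. -/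
theorem tl_dich (h : TL B s ΦL ΦS X) :
    (∃ i ∈ ΦL, s i = 2 ∧ (X.filter (fun x => B x i = 2)).card = 1) ∨
    (∃ u, ∃ H : N1 B s ΦL ΦS X u, ∃ x0 ∈ X, s x0 = 1 ∧
      (((H.T x0).card + 1) % 4 = 1 ∨ ((H.T x0).card + 1) % 4 = 2) ∧
      5 ≤ (H.T x0).card + 1) := by
  obtain ⟨i, hi, hsi⟩ := h.exL
  by_cases hno : ∀ g ∈ ΦL, s g = 2 → g ≠ i → B i g = 0
  · exact Or.inl ⟨i, hi, hsi, h.n2_card hi hsi hno⟩
  right
  push Not at hno
  obtain ⟨g, hg, hsg, hgi, hig⟩ := hno
  obtain ⟨u, hu, hsu, huniq, hadj⟩ := h.n1_struct hi hg hsi hsg hgi hig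
  have H : N1 B s ΦL ΦS X u := ⟨h, hu, hsu, huniq, hadj⟩
  obtain ⟨x, hx, hxi⟩ := h.faithL i hi
  have hsx := h.f2L hx hi hsi hxi
  have hiT : i ∈ H.T x := H.mem_T.mpr ⟨hi, hsi, hxi⟩
  have hpar := H.parity hx hsx
  -- at least two elements
  have h2 : 2 ≤ (H.T x).card := by
    have hex : ∃ k ∈ H.T x, k ≠ i := by
      rcases H.mem_or hx hsx hg hsg with h1 | h1
      · exact ⟨g, h1, hgi⟩
      · refine ⟨_, h1, ?_⟩
        intro e
        have e2 : B i g = 0 := by
          rw [← e, map_sub, map_smul, LinearMap.sub_apply, LinearMap.smul_apply, h.symm u g,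
            hadj g hg hsg, h.four g hg, smul_eq_mul]
          ring
        exact hig e2
    obtain ⟨k, hk, hki⟩ := hex
    exact Finset.one_lt_card.mpr ⟨k, hk, i, hiT, hki⟩
  exact ⟨u, H, x, hx, hsx, hpar, by omega⟩

end PR
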