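import Pool.Agent.Helper43.PR.Wedge
import Pool.Agent.Helper43.PR.Dich

/-!
Commuting involutions in a simple Lie algebra of symplectic operators generated by involutions.
-/

open Module LieModule LieAlgebra LieAlgebra.IsKilling
open MTP MTP.MF

attribute [local instance 100] LieRing.ofAssociativeRing

namespace PR

variable {K : Type*} [Field K] [CharZero K] [IsAlgClosed K] {V : Type*} [AddCommGroup V]
  [Module K V] [FiniteDimensional K V] {ω : LinearMap.BilinForm K V}

/-- **The simple case, for commuting involutions.** -/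
theorem class_com {L : LieSubalgebra K (Module.End K V)} {S0 : Set (Module.End K V)}
    (hC : Ctx ω L.toSubmodule S0) (halt : ω.IsAlt) (hsimple : IsSimple K L)
    {n : ℕ} (hn : 0 < n) (s : Fin n → Module.End K V) (hs : ∀ i, s i ∈ L)
    (hss : ∀ i, s i * s i = 1) (hc : ∀ i j, s i * s j = s j * s i) :
    (∀ z, IsSk ω z → z ∈ L) ∨
    (∃ m, ∃ D : PR.WD L.toSubmodule m, ∀ i, ∃ j, s i = D.t j ∨ s i = - D.t j) ∨
    (∃ q, (q % 4 = 1 ∨ q % 4 = 2) ∧ 5 ≤ q ∧
      ∃ b : Basis {I : Finset (Fin (q + 1)) // Even I.card} K V,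
        ∀ i, ∃ j : Fin (q + 1), (q % 4 = 2 → j ≠ 0) ∧
          ((∀ I, s i (b I) = (if j ∈ I.1 then (-1 : K) else 1) • b I) ∨
            (∀ I, s i (b I) = (if j ∈ I.1 then (1 : K) else -1) • b I))) := by
  classical
  rcases subsingleton_or_nontrivial V with hV | hV
  · left
    intro z _
    have : z = 0 := Subsingleton.elim _ _
    rw [this]
    exact L.zero_mem
  obtain ⟨M, iM1, iM2, X, Φ, co, F, t, hst, ht, hcases⟩ :=
    exists_flat hC halt hsimple hn s hs hss hc
  have hXne : X.Nonempty := by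
    have hb := F.v.index_nonempty
    obtain ⟨x⟩ := hb
    exact ⟨x.1, x.2⟩
  have hfull : ∀ a ∈ Φ, rk (F.e a) = 1 → (∀ z, IsSk ω z → z ∈ L) := by
    intro a ha h1 z hz
    exact hC.eq_sp_of_odd halt (F.e_mem a ha) (F.e_sq a ha) (by rw [h1]; exact odd_one) hz
  rcases hcases with ⟨B, hSL, hco⟩ | ⟨B, ΦL, ΦS, hΦ, hTL, hco⟩
  · obtain ⟨i, hi, hsi⟩ := sl_exists hSL hXne (fun m hm => F.zero_of (fun a ha => by
      rw [hco a ha]; exact hm a ha))
    rcases sl_dich hSL hi hsi with ⟨x0, hx0, hiR, hadj, hP, hodd⟩ | ⟨hB, x0, hx0, h4, h5⟩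
    · by_cases h3 : 3 ≤ (hSL.R x0).card
      · right; left
        obtain ⟨m, D, hD⟩ := W43.wedge_case F hn t ht hSL hco hadj hx0 hP hodd h3
        refine ⟨m, D, fun i => ?_⟩
        obtain ⟨j, hj⟩ := hD i
        exact ⟨j, by rw [hst i]; exact hj⟩
      · left
        have h1 : (hSL.R x0).card = 1 := by
          obtain ⟨k, hk⟩ := hodd
          omega
        refine hfull i hi ?_
        rw [F.e_rk i hi]
        have h2 : X.filter (fun x => co i x = 1) = {x0} := by
          ext x
          rw [Finset.mem_filter, Finset.mem_singleton, hco i hi]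
          have hP1 : hSL.P.card = 1 := by omega
          have hPi : hSL.P = {i} := by
            obtain ⟨a, ha⟩ := Finset.card_eq_one.mp hP1
            have h3 := hSL.mem_P.mpr ⟨hi, hsi⟩
            rw [ha, Finset.mem_singleton] at h3
            rw [ha, h3]
          constructor
          · rintro ⟨hx, hx1⟩
            have hx2 : x ∈ hSL.Xp := hSL.mem_Xp.mpr ⟨hx, hSL.sx_of_one hx hi hsi hx1⟩
            apply hSL.R_injOn hx2 hx0
            have e1 : ∀ y, i ∈ hSL.R y → hSL.R y = {i} := by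
              intro y hy
              apply Finset.Subset.antisymm
              · rw [← hPi]; exact hSL.R_sub y
              · rw [Finset.singleton_subset_iff]; exact hy
            rw [e1 x (hSL.mem_R.mpr ⟨hi, hsi, hx1⟩), e1 x0 hiR]
          · rintro rfl
            exact ⟨(hSL.mem_Xp.mp hx0).1, (hSL.mem_R.mp hiR).2.2⟩
        rw [h2, Finset.card_singleton]
    · right; right
      refine ⟨(hB.R x0).card, Or.inl h4, h5, ?_⟩
      obtain ⟨b, hb⟩ := spinD F t ht hB hco hx0 h4 h5
      refine ⟨b, fun i => ?_⟩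
      obtain ⟨j, hj1, hj2⟩ := hb i
      exact ⟨j, hj1, by rw [hst i]; exact hj2⟩
  · rcases tl_dich hTL with ⟨i, hi, hsi, hcard⟩ | ⟨u, H, x0, hx0, hs0, h4, h5⟩
    · left
      have hiΦ : i ∈ Φ := by rw [hΦ]; exact Finset.mem_union_left _ hi
      refine hfull i hiΦ ?_
      rw [F.e_rk i hiΦ, ← hcard]
      congr 1
      refine Finset.filter_congr fun x _ => ?_
      rw [hco i hiΦ, hTL.coL hi]
      constructor
      · intro h1; linear_combination 2 * h1
      · intro h1; rw [h1]; norm_num
    · right; right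
      refine ⟨(H.T x0).card + 1, h4, h5, ?_⟩
      obtain ⟨b, hb⟩ := spinB F t ht H hΦ hco hx0 hs0 h5
      refine ⟨b, fun i => ?_⟩
      obtain ⟨j, hj1, hj2⟩ := hb i
      exact ⟨j, hj1, by rw [hst i]; exact hj2⟩

end PR
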