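import Pool.Agent.Helper54.MT.CartanIn
import Pool.Agent.Helper54.MT.TwoMain

/-!
Commuting involutions of a Lie algebra of operators lie in a common Cartan subalgebra.
-/

open Module Polynomial LieAlgebra

attribute [local instance 100] LieRing.ofAssociativeRing

namespace PR

open Pool.Agent.Helper54.MT

variable {K : Type*} [Field K] [CharZero K] {V : Type*} [AddCommGroup V] [Module K V]

/-- The common eigenvectors of commuting involutions span. -/
lemma span_joint {n : ℕ} (s : Fin n → Module.End K V) (hss : ∀ i, s i * s i = 1)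
    (hc : ∀ i j, s i * s j = s j * s i) :
    Submodule.span K {v | ∀ i, s i v = v ∨ s i v = -v} = ⊤ := by
  classical
  have key : ∀ T : Finset (Fin n),
      Submodule.span K {v | ∀ i ∈ T, s i v = v ∨ s i v = -v} = ⊤ := by
    intro T
    induction T using Finset.induction_on with
    | empty =>
      rw [eq_top_iff]
      intro v _
      exact Submodule.subset_span (by simp)
    | insert a T ha ih =>
      rw [eq_top_iff, ← ih, Submodule.span_le]
      intro v hv
      have hv' : ∀ i ∈ T, s i v = v ∨ s i v = -v := hv
      have h2 : s a (s a v) = v := LinearMap.congr_fun (hss a) v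
      have h3 : ∀ i, s i (s a v) = s a (s i v) := fun i => LinearMap.congr_fun (hc i a) v
      have h1 : v = (1 / 2 : K) • (v + s a v) + (1 / 2 : K) • (v - s a v) := by
        module
      rw [h1]
      refine add_mem (Submodule.smul_mem _ _ (Submodule.subset_span ?_))
        (Submodule.smul_mem _ _ (Submodule.subset_span ?_))
      · intro i hi
        rcases Finset.mem_insert.mp hi with rfl | hi
        · left
          rw [map_add, h2, add_comm]
        · rcases hv' i hi with h4 | h4
          · left
            rw [map_add, h3, h4]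
          · right
            rw [map_add, h3, h4, map_neg, neg_add]
      · intro i hi
        rcases Finset.mem_insert.mp hi with rfl | hi
        · right
          rw [map_sub, h2, neg_sub]
        · rcases hv' i hi with h4 | h4
          · left
            rw [map_sub, h3, h4]
          · right
            rw [map_sub, h3, h4, map_neg]
            abel
  have := key Finset.univ
  simpa using this

/-- The value of the generic combination. -/
def gval (K : Type*) [Field K] {n : ℕ} (T : Finset (Fin n)) : K :=
  ∑ i : Fin n, (2 : K) ^ (i : ℕ) * (if i ∈ T then 1 else -1)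

omit [CharZero K] in
lemma gval_eq {n : ℕ} (T : Finset (Fin n)) :
    gval K T = 2 * ((∑ i ∈ T, 2 ^ (i : ℕ) : ℕ) : K) - ((∑ i : Fin n, 2 ^ (i : ℕ) : ℕ) : K) := by
  classical
  rw [gval]
  push_cast
  rw [Finset.mul_sum]
  have h1 : ∑ i ∈ T, (2 : K) * 2 ^ (i : ℕ) =
      ∑ i : Fin n, if i ∈ T then (2 : K) * 2 ^ (i : ℕ) else 0 := by
    rw [Finset.sum_ite_mem, Finset.univ_inter]
  rw [h1, ← Finset.sum_sub_distrib]
  refine Finset.sum_congr rfl fun i _ => ?_
  split_ifs <;> ring

lemma gval_inj {n : ℕ} : Function.Injective (gval K (n := n)) := by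
  classical
  intro T U hTU
  rw [gval_eq, gval_eq] at hTU
  have h1 : ((∑ i ∈ T, 2 ^ (i : ℕ) : ℕ) : K) = ((∑ i ∈ U, 2 ^ (i : ℕ) : ℕ) : K) := by
    have h2 : (2 : K) * (((∑ i ∈ T, 2 ^ (i : ℕ) : ℕ) : K) - ((∑ i ∈ U, 2 ^ (i : ℕ) : ℕ) : K)) = 0 := by
      linear_combination hTU
    exact sub_eq_zero.mp ((mul_eq_zero.mp h2).resolve_left two_ne_zero)
  have h2 : (∑ i ∈ T, 2 ^ (i : ℕ) : ℕ) = ∑ i ∈ U, 2 ^ (i : ℕ) := by exact_mod_cast h1
  have h3 : ∀ W : Finset (Fin n), (∑ i ∈ W, 2 ^ (i : ℕ) : ℕ) =
      ∑ i ∈ W.map Fin.valEmbedding, 2 ^ i := by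
    intro W
    rw [Finset.sum_map]
    rfl
  rw [h3, h3] at h2
  exact Finset.map_injective _ (Finset.geomSum_injective le_rfl h2)

/-- What commutes with the generic combination commutes with all the involutions. -/
lemma comm_of_sum {n : ℕ} (s : Fin n → Module.End K V) (hss : ∀ i, s i * s i = 1)
    (hc : ∀ i j, s i * s j = s j * s i) {y : Module.End K V}
    (hy : y * (∑ i : Fin n, (2 : K) ^ (i : ℕ) • s i) = (∑ i : Fin n, (2 : K) ^ (i : ℕ) • s i) * y)
    (i : Fin n) : y * s i = s i * y := by
  classical
  set x : Module.End K V := ∑ i : Fin n, (2 : K) ^ (i : ℕ) • s i with hx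
  set p : K[X] := Lagrange.interpolate (Finset.univ : Finset (Finset (Fin n))) (gval K)
    (fun T => if i ∈ T then 1 else -1) with hp
  have h1 : aeval x p = s i := by
    apply LinearMap.ext
    intro v
    have h2 : ∀ v ∈ {v | ∀ i, s i v = v ∨ s i v = -v}, (aeval x p) v = s i v := by
      intro v hv
      by_cases hv0 : v = 0
      · rw [hv0, map_zero, map_zero]
      have hv' : ∀ i, s i v = v ∨ s i v = -v := hv
      set T : Finset (Fin n) := Finset.univ.filter (fun i => s i v = v) with hT
      have h3 : ∀ i, s i v = (if i ∈ T then (1 : K) else -1) • v := by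
        intro i
        split_ifs with h4
        · rw [one_smul]
          exact (Finset.mem_filter.mp h4).2
        · rw [neg_one_smul]
          rcases hv' i with h5 | h5
          · exact absurd (by rw [hT, Finset.mem_filter]; exact ⟨Finset.mem_univ _, h5⟩) h4
          · exact h5
      have h4 : x v = gval K T • v := by
        rw [hx, gval, LinearMap.sum_apply, Finset.sum_smul]
        refine Finset.sum_congr rfl fun j _ => ?_
        rw [LinearMap.smul_apply, h3 j, smul_smul]
      have h5 : (aeval x p) v = p.eval (gval K T) • v :=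
        Module.End.aeval_apply_of_hasEigenvector
          ⟨Module.End.mem_eigenspace_iff.mpr h4, hv0⟩
      rw [h5, hp, Lagrange.eval_interpolate_at_node _ (gval_inj.injOn) (Finset.mem_univ _), h3 i]
    have h3 : v ∈ Submodule.span K {v | ∀ i, s i v = v ∨ s i v = -v} := by
      rw [span_joint s hss hc]
      exact Submodule.mem_top
    induction h3 using Submodule.span_induction with
    | mem v hv => exact h2 v hv
    | zero => rw [map_zero, map_zero]
    | add a b _ _ ha hb => rw [map_add, map_add, ha, hb]
    | smul c a _ ha => rw [map_smul, map_smul, ha]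
  have h2 : Commute y x := hy
  have h3 : Commute y (aeval x p) := by
    have h4 : aeval x p ∈ Algebra.adjoin K {x} := aeval_mem_adjoin_singleton K x
    have h5 : Algebra.adjoin K {x} ≤ Subalgebra.centralizer K {y} := by
      rw [Algebra.adjoin_le_iff]
      intro z hz
      rw [Set.mem_singleton_iff] at hz
      rw [hz, SetLike.mem_coe, Subalgebra.mem_centralizer_iff]
      intro w hw
      rw [Set.mem_singleton_iff] at hw
      rw [hw]
      exact h2
    have h6 := h5 h4
    rw [Subalgebra.mem_centralizer_iff] at h6
    exact h6 y rfl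
  rw [h1] at h3
  exact h3

/-- Sums of commuting semisimple operators. -/
lemma semisimple_sum [FiniteDimensional K V] {n : ℕ} (s : Fin n → Module.End K V)
    (hss : ∀ i, s i * s i = 1) (hc : ∀ i j, s i * s j = s j * s i) (c : Fin n → K) :
    (∑ i : Fin n, c i • s i).IsSemisimple := by
  classical
  have key : ∀ T : Finset (Fin n), (∑ i ∈ T, c i • s i).IsSemisimple := by
    intro T
    induction T using Finset.induction_on with
    | empty =>
      rw [Finset.sum_empty]
      exact Module.End.isSemisimple_zero
    | insert a T ha ih =>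
      rw [Finset.sum_insert ha]
      refine Module.End.IsSemisimple.add_of_commute ?_ ?_ ih
      · refine Commute.sum_right _ _ _ fun i _ => ?_
        have h1 : Commute (s a) (s i) := hc a i
        exact (h1.smul_left _).smul_right _
      · have h1 : c a • s a = aeval (s a) (C (c a) * X : K[X]) := by
          rw [map_mul, aeval_C, aeval_X, Algebra.smul_def]
        rw [h1]
        exact (semisimple_of_sq (hss a)).aeval _
  exact key Finset.univ

/-- Commuting involutions lie in a common Cartan subalgebra. -/
theorem exists_cartan_family [FiniteDimensional K V] [IsAlgClosed K]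
    {L : LieSubalgebra K (Module.End K V)}
    (habel : ∀ H : LieSubalgebra K L, H.IsCartanSubalgebra → ∀ x ∈ H, ∀ y ∈ H, ⁅x, y⁆ = 0)
    {n : ℕ} (s : Fin n → Module.End K V)
    (hs : ∀ i, s i ∈ L) (hss : ∀ i, s i * s i = 1) (hc : ∀ i j, s i * s j = s j * s i) :
    ∃ H : LieSubalgebra K L, H.IsCartanSubalgebra ∧ ∀ i, (⟨s i, hs i⟩ : L) ∈ H := by
  classical
  set x : Module.End K V := ∑ i : Fin n, (2 : K) ^ (i : ℕ) • s i with hx
  have hxL : x ∈ L := by
    have : x ∈ L.toSubmodule := Submodule.sum_mem _ fun i _ => Submodule.smul_mem _ _ (hs i)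
    exact this
  obtain ⟨H, hH, hxH⟩ := exists_cartan_end (L := L) ⟨x, hxL⟩ (semisimple_sum s hss hc _)
  refine ⟨H, hH, fun i => ?_⟩
  have h1 : (⟨s i, hs i⟩ : L) ∈ H.normalizer := by
    rw [LieSubalgebra.mem_normalizer_iff]
    intro y hy
    have h2 : ⁅(y : L), (⟨x, hxL⟩ : L)⁆ = 0 := habel H hH y hy _ hxH
    have h3 : (y : Module.End K V) * x = x * (y : Module.End K V) := by
      have h4 := congrArg (fun z : L => (z : Module.End K V)) h2
      have h5 : ((y : L) : Module.End K V) * x - x * ((y : L) : Module.End K V) = 0 := h4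
      exact sub_eq_zero.mp h5
    have h4 := comm_of_sum s hss hc (y := (y : Module.End K V)) h3 i
    have h5 : ⁅(⟨s i, hs i⟩ : L), y⁆ = 0 := by
      apply Subtype.ext
      change s i * (y : Module.End K V) - (y : Module.End K V) * s i = 0
      rw [h4, sub_self]
    rw [h5]
    exact H.zero_mem
  rwa [hH.self_normalizing] at h1

end PR
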