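import Pool.Agent.Helper43.PR.Flat
import Pool.Agent.Helper21.TR.SL5

/-!
Weights of half spin type: all involutions of the Cartan subalgebra are coordinate involutions.
-/

open Module

namespace PR

/-- A function on a finite set whose alternating sums over the even subsets are `2` or `-2` has
exactly one nonzero value. -/
lemma signs {K : Type*} [Field K] [CharZero K] {J : Type*} [Fintype J] [DecidableEq J]
    (hJ : 5 ≤ Fintype.card J) (f : J → K)
    (hf : ∀ I : Finset J, Even I.card → ∑ j, (if j ∈ I then (-1 : K) else 1) * f j = 2 ∨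
      ∑ j, (if j ∈ I then (-1 : K) else 1) * f j = -2) :
    ∃ j, (f j = 2 ∨ f j = -2) ∧ ∀ k, k ≠ j → f k = 0 := by
  obtain ⟨T, hT⟩ : ∃ T, T = ∑ j, f j := ⟨_, rfl⟩
  have hS : ∀ I : Finset J, ∑ j, (if j ∈ I then (-1 : K) else 1) * f j =
      T - 2 * ∑ j ∈ I, f j := by
    intro I
    have h1 : ∑ j ∈ I, f j = ∑ j, if j ∈ I then f j else 0 := by
      rw [Finset.sum_ite_mem, Finset.univ_inter]
    rw [h1, Finset.mul_sum, hT, ← Finset.sum_sub_distrib]
    refine Finset.sum_congr rfl fun j _ => ?_
    split_ifs <;> ring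
  simp only [hS] at hf
  have hT2 : T = 2 ∨ T = -2 := by
    have := hf ∅ (by simp)
    simpa using this
  have hT0 : T ≠ 0 := by
    rcases hT2 with h | h <;> rw [h] <;> norm_num
  have hev : ∀ I : Finset J, Even I.card → ∑ j ∈ I, f j = 0 ∨ ∑ j ∈ I, f j = T := by
    intro I hI
    rcases hT2 with h1 | h1 <;> rcases hf I hI with h2 | h2
    · left; linear_combination (1 / 2 : K) * h1 - (1 / 2 : K) * h2
    · right; linear_combination -(1 / 2 : K) * h1 - (1 / 2 : K) * h2
    · right; linear_combination -(1 / 2 : K) * h1 - (1 / 2 : K) * h2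
    · left; linear_combination (1 / 2 : K) * h1 - (1 / 2 : K) * h2
  have hpair : ∀ j k, j ≠ k → f j + f k = 0 ∨ f j + f k = T := by
    intro j k hjk
    have h1 := hev {j, k} (by rw [Finset.card_pair hjk]; exact even_two)
    rw [Finset.sum_pair hjk] at h1
    exact h1
  have hmore : ∀ j k l : J, ∃ m n, m ≠ n ∧ m ≠ j ∧ m ≠ k ∧ m ≠ l ∧ n ≠ j ∧ n ≠ k ∧ n ≠ l := by
    intro j k l
    have h1 : 1 < (Finset.univ \ {j, k, l}).card := by
      have h2 := Finset.le_card_sdiff {j, k, l} (Finset.univ : Finset J)
      have h3 : ({j, k, l} : Finset J).card ≤ 3 := Finset.card_le_three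
      rw [Finset.card_univ] at h2
      omega
    obtain ⟨m, hm, n, hn, hmn⟩ := Finset.one_lt_card.mp h1
    simp only [Finset.mem_sdiff, Finset.mem_univ, true_and, Finset.mem_insert,
      Finset.mem_singleton, not_or] at hm hn
    exact ⟨m, n, hmn, hm.1, hm.2.1, hm.2.2, hn.1, hn.2.1, hn.2.2⟩
  by_cases hno : ∀ j k, j ≠ k → f j + f k = 0
  · exfalso
    apply hT0
    rw [hT]
    refine Finset.sum_eq_zero fun l _ => ?_
    obtain ⟨m, n, hmn, hml, -, -, hnl, -, -⟩ := hmore l l l
    have h1 := hno l m (Ne.symm hml)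
    have h2 := hno l n (Ne.symm hnl)
    have h3 := hno m n hmn
    linear_combination (1 / 2 : K) * h1 + (1 / 2 : K) * h2 - (1 / 2 : K) * h3
  · push Not at hno
    obtain ⟨j, k, hjk, h0⟩ := hno
    have hjkT : f j + f k = T := (hpair j k hjk).resolve_left h0
    have hout : ∀ l m, l ≠ m → l ≠ j → l ≠ k → m ≠ j → m ≠ k → f l + f m = 0 := by
      intro l m hlm hlj hlk hmj hmk
      rcases hpair l m hlm with h1 | h1
      · exact h1
      · exfalso
        have hd : Disjoint ({j, k} : Finset J) {l, m} := by
          rw [Finset.disjoint_left]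
          intro a ha hb
          rw [Finset.mem_insert, Finset.mem_singleton] at ha hb
          rcases ha with rfl | rfl <;> rcases hb with hb | hb
          · exact hlj hb.symm
          · exact hmj hb.symm
          · exact hlk hb.symm
          · exact hmk hb.symm
        have h2 := hev ({j, k} ∪ {l, m}) (by
          rw [Finset.card_union_of_disjoint hd, Finset.card_pair hjk, Finset.card_pair hlm]
          decide)
        rw [Finset.sum_union hd, Finset.sum_pair hjk, Finset.sum_pair hlm, hjkT, h1] at h2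
        rcases h2 with h2 | h2
        · apply hT0; linear_combination (1 / 2 : K) * h2
        · apply hT0; linear_combination h2
    have hzero : ∀ l, l ≠ j → l ≠ k → f l = 0 := by
      intro l hlj hlk
      obtain ⟨m, n, hmn, hmj, hmk, hml, hnj, hnk, hnl⟩ := hmore j k l
      have h1 := hout l m (Ne.symm hml) hlj hlk hmj hmk
      have h2 := hout l n (Ne.symm hnl) hlj hlk hnj hnk
      have h3 := hout m n hmn hmj hmk hnj hnk
      linear_combination (1 / 2 : K) * h1 + (1 / 2 : K) * h2 - (1 / 2 : K) * h3
    obtain ⟨l, -, -, hlj, hlk, -, -, -, -⟩ := hmore j k k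
    have h1 := hpair j l (Ne.symm hlj)
    rw [hzero l hlj hlk, add_zero] at h1
    rcases h1 with h1 | h1
    · refine ⟨k, ?_, fun m hm => ?_⟩
      · rw [h1, zero_add] at hjkT
        rw [hjkT]; exact hT2
      · by_cases hmj : m = j
        · rw [hmj, h1]
        · exact hzero m hmj hm
    · refine ⟨j, by rw [h1]; exact hT2, fun m hm => ?_⟩
      by_cases hmk : m = k
      · rw [hmk]; linear_combination hjkT - h1
      · exact hzero m hm hmk

section Cube

variable {K : Type*} [Field K] [CharZero K] {V : Type*} [AddCommGroup V] [Module K V]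
  {M : Type*} [AddCommGroup M] [Module K M] {L : Submodule K (Module.End K V)}
  {X Φ : Finset M} {co : M → Module.Dual K M}

theorem cube (F : Fl L X Φ co) {n : ℕ} (t : Fin n → Module.Dual K M)
    (ht : ∀ i, ∀ x ∈ X, t i x = 1 ∨ t i x = -1)
    {J : Type*} [Fintype J] [DecidableEq J] {q : ℕ} (hJ : Fintype.card J = q) (h5 : 5 ≤ q)
    (ε : Option J → M) (hX : X.card = 2 ^ q)
    (hE : ∀ x ∈ X, ∃ I : Finset (Option J), Even I.card ∧
      x + x = ∑ j, (if j ∈ I then (-1 : K) else 1) • ε j)
    (hq : q % 4 = 2 → ε none = 0) :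
    ∃ b : Basis {I : Finset (Fin (q + 1)) // Even I.card} K V, ∀ i, ∃ j : Fin (q + 1),
      (q % 4 = 2 → j ≠ 0) ∧
      ((∀ I, F.tor (t i) (b I) = (if j ∈ I.1 then (-1 : K) else 1) • b I) ∨
        (∀ I, F.tor (t i) (b I) = (if j ∈ I.1 then (1 : K) else -1) • b I)) := by
  classical
  let e : Option J ≃ Fin (q + 1) :=
    (Equiv.optionCongr (Fintype.equivFinOfCardEq hJ)).trans (finSuccEquiv q).symm
  have he : e none = 0 := by
    simp [e]
  choose! E hE1 hE2 using hE
  let g : X → {I : Finset (Fin (q + 1)) // Even I.card} :=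
    fun x => ⟨(E x.1).map e.toEmbedding, by rw [Finset.card_map]; exact hE1 x.1 x.2⟩
  have hg : Function.Injective g := by
    intro x y hxy
    have h1 : E x.1 = E y.1 := Finset.map_injective _ (congrArg Subtype.val hxy)
    have h2 : x.1 + x.1 = y.1 + y.1 := by rw [hE2 x.1 x.2, hE2 y.1 y.2, h1]
    have h3 : (2 : K) • x.1 = (2 : K) • y.1 := by rw [two_smul, two_smul, h2]
    exact Subtype.ext (smul_right_injective M (two_ne_zero (α := K)) h3)
  have hcard : Fintype.card X = Fintype.card {I : Finset (Fin (q + 1)) // Even I.card} := by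
    have h1 := TR.card_even (Finset.univ : Finset (Fin (q + 1))) Finset.univ_nonempty
    rw [Finset.card_univ, Fintype.card_fin, Finset.powerset_univ] at h1
    rw [Fintype.card_coe, hX, Fintype.card_subtype, h1]
    rfl
  have hbij : Function.Bijective g := (Fintype.bijective_iff_injective_and_card g).mpr ⟨hg, hcard⟩
  let ψ : X ≃ {I : Finset (Fin (q + 1)) // Even I.card} := Equiv.ofBijective g hbij
  have hψ : ∀ I, (I.1 : Finset (Fin (q + 1))) = (E (ψ.symm I).1).map e.toEmbedding := by
    intro I
    have h1 : ψ (ψ.symm I) = I := ψ.apply_symm_apply I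
    exact (congrArg Subtype.val h1).symm
  refine ⟨F.v.reindex ψ, fun i => ?_⟩
  have hval : ∀ x : X, t i x.1 + t i x.1 =
      ∑ j, (if j ∈ E x.1 then (-1 : K) else 1) * t i (ε j) := by
    intro x
    rw [← map_add, hE2 x.1 x.2, map_sum]
    refine Finset.sum_congr rfl fun j _ => ?_
    rw [map_smul, smul_eq_mul]
  obtain ⟨j0, hj0, hj1⟩ := signs (J := Option J) (by rw [Fintype.card_option]; omega)
    (fun j => t i (ε j)) (by
      intro I hI
      obtain ⟨x, hx⟩ := hbij.2 ⟨I.map e.toEmbedding, by rw [Finset.card_map]; exact hI⟩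
      have h1 : E x.1 = I := Finset.map_injective _ (congrArg Subtype.val hx)
      have h2 := hval x
      rw [h1] at h2
      rcases ht i x.1 x.2 with h3 | h3 <;> rw [h3] at h2
      · left; rw [← h2]; norm_num
      · right; rw [← h2]; norm_num)
  refine ⟨e j0, ?_, ?_⟩
  · intro hq2 h0
    have h1 : j0 = none := e.injective (h0.trans he.symm)
    rw [h1, hq hq2, map_zero] at hj0
    rcases hj0 with h | h <;> norm_num at h
  · have hv : ∀ x : X, t i x.1 + t i x.1 = (if j0 ∈ E x.1 then (-1 : K) else 1) * t i (ε j0) := by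
      intro x
      rw [hval x]
      refine Finset.sum_eq_single j0 (fun j _ hj => ?_) (fun h => absurd (Finset.mem_univ _) h)
      rw [hj1 j hj, mul_zero]
    have hmem : ∀ I : {I : Finset (Fin (q + 1)) // Even I.card},
        e j0 ∈ I.1 ↔ j0 ∈ E (ψ.symm I).1 := by
      intro I
      rw [hψ I]
      exact Finset.mem_map' e.toEmbedding
    rcases hj0 with h2 | h2
    · left
      intro I
      rw [Basis.reindex_apply, F.tor_v]
      congr 1
      have h3 := hv (ψ.symm I)
      rw [h2] at h3
      by_cases h4 : j0 ∈ E (ψ.symm I).1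
      · rw [if_pos ((hmem I).mpr h4)]
        rw [if_pos h4] at h3
        linear_combination (1 / 2 : K) * h3
      · rw [if_neg (fun h => h4 ((hmem I).mp h))]
        rw [if_neg h4] at h3
        linear_combination (1 / 2 : K) * h3
    · right
      intro I
      rw [Basis.reindex_apply, F.tor_v]
      congr 1
      have h3 := hv (ψ.symm I)
      rw [h2] at h3
      by_cases h4 : j0 ∈ E (ψ.symm I).1
      · rw [if_pos ((hmem I).mpr h4)]
        rw [if_pos h4] at h3
        linear_combination (1 / 2 : K) * h3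
      · rw [if_neg (fun h => h4 ((hmem I).mp h))]
        rw [if_neg h4] at h3
        linear_combination (1 / 2 : K) * h3

end Cube

end PR
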