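import Pool.Agent.Helper21.TR.Simple
import Pool.Agent.Helper43.PR.Cartan

/-!
Commuting involutions in a simple Lie algebra of operators: reduction to systems of roots and
weights.
-/

open Module LieModule LieAlgebra LieAlgebra.IsKilling
open MTP MTP.MF
open Pool.Agent.Helper54.MT (exists_cartan_end killing_of semisimple_of_sq)

attribute [local instance 100] LieRing.ofAssociativeRing

namespace PR

section Sys

open Pool.Agent.Helper54.MT RootPairing TR

variable {ι K M N : Type*} [Field K] [CharZero K] [AddCommGroup M] [Module K M]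
  [AddCommGroup N] [Module K N] {P : RootPairing ι K M N} [Fintype ι] [P.IsCrystallographic]

/-- A set of small weights with an involution gives a simply laced system or a system with two
root lengths. -/
theorem sl_or_tl [P.IsReduced] [P.IsIrreducible] [DecidableEq M]
    {X : Finset M} (hW : WeightSet P (X : Set M)) (hne : X.Nonempty)
    (s : Module.Dual K M) (hs : ∀ x ∈ X, s x = 1 ∨ s x = -1)
    (hspan : P.rootSpan K = ⊤) (hpar : Par P X) :
    (∃ B : LinearMap.BilinForm K M, SL B s (Finset.univ.image P.root) X ∧
      ∀ i x, P.coroot' i x = B x (P.root i)) ∨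
    (∃ (B : LinearMap.BilinForm K M) (ΦL ΦS : Finset M),
      Finset.univ.image P.root = ΦL ∪ ΦS ∧ TL B s ΦL ΦS X ∧
      ∀ i x, P.coroot' i x = co B x (P.root i)) := by
  have h : Sit P X s := ⟨hW, hne, hs⟩
  by_cases hall : ∀ i j, len P i = len P j
  · -- simply laced
    obtain ⟨i0, -, hi0⟩ := h.exists_s Set.univ (by rw [Set.image_univ]; exact hspan)
      (fun _ _ => Set.mem_univ _)
    have hl : ∀ i, len P i = len P i0 := fun i => hall i i0
    exact Or.inl ⟨bf P (len P i0), h.toSL hspan hpar hl, fun i x => (bf_one (hl i) x).symm⟩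
  · -- two lengths
    rw [not_forall] at hall
    obtain ⟨i1, hall⟩ := hall
    rw [not_forall] at hall
    obtain ⟨j1, hij⟩ := hall
    obtain ⟨i0, j0, hij0⟩ : ∃ i0 j0, len P i0 = 2 * len P j0 := by
      rcases h.len_cases i1 j1 with h1 | h1 | h1
      · exact absurd h1 hij
      · exact ⟨i1, j1, h1⟩
      · exact ⟨j1, i1, h1⟩
    set l := len P j0 with hl
    have hl0 : 0 < l := len_pos P j0
    have hlen : ∀ i, len P i = l ∨ len P i = 2 * l := by
      intro i
      have h1 := h.len_cases i i0
      have h2 := h.len_cases i j0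
      rw [hij0] at h1
      rw [← hl] at h2
      omega
    refine Or.inr ⟨bf P l, ofLen P (2 * l), ofLen P l, ?_, h.toTL hspan hpar hlen hij0 hl.symm, ?_⟩
    · ext a
      rw [Finset.mem_union, mem_ofLen, mem_ofLen, Finset.mem_image]
      constructor
      · rintro ⟨i, -, rfl⟩
        rcases hlen i with h1 | h1
        · right; exact ⟨i, h1, rfl⟩
        · left; exact ⟨i, h1, rfl⟩
      · rintro (⟨i, -, rfl⟩ | ⟨i, -, rfl⟩)
        · exact ⟨i, Finset.mem_univ _, rfl⟩
        · exact ⟨i, Finset.mem_univ _, rfl⟩
    · intro i x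
      rw [TR.co]
      rcases hlen i with h1 | h1
      · rw [bf_one h1, bf_one h1, pair_cast, pair_self]
        push_cast
        field_simp
      · rw [bf_two h1, bf_two h1, pair_cast, pair_self]
        push_cast
        field_simp

end Sys

/-- The action of a Lie algebra of operators in terms of weights `X`, roots `Φ` and coroots `co`:
`v` is a basis of weight vectors, `tor` is the Cartan subalgebra, `e a` is a root vector. -/
structure Fl {K : Type*} [Field K] {V : Type*} [AddCommGroup V] [Module K V]
    (L : Submodule K (Module.End K V)) {M : Type*} [AddCommGroup M] [Module K M]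
    (X Φ : Finset M) (co : M → Module.Dual K M) where
  v : Basis X K V
  tor : Module.Dual K M →ₗ[K] Module.End K V
  e : M → Module.End K V
  tor_mem : ∀ c, tor c ∈ L
  e_mem : ∀ a ∈ Φ, e a ∈ L
  e_ne : ∀ a ∈ Φ, e a ≠ 0
  e_sq : ∀ a ∈ Φ, e a * e a = 0
  e_rk : ∀ a ∈ Φ, open Classical in rk (e a) = (X.filter (fun x => co a x = 1)).card
  tor_v : ∀ (c : Module.Dual K M) (x : X), tor c (v x) = c x.1 • v x
  tor_e : ∀ (c : Module.Dual K M), ∀ a ∈ Φ, tor c * e a - e a * tor c = c a • e a
  span : L ≤ Submodule.span K (Set.range tor ∪ e '' (Φ : Set M))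
  span_co : ∀ c : Module.Dual K M, c ∈ Submodule.span K (co '' (Φ : Set M))

universe u w

variable {K : Type u} [Field K] [CharZero K] [IsAlgClosed K] {V : Type w} [AddCommGroup V]
  [Module K V] [FiniteDimensional K V] {ω : LinearMap.BilinForm K V}

open Classical in
/-- **The reduction.** Commuting involutions of a simple Lie algebra of operators are operators of
one Cartan subalgebra, and the weights and roots form a simply laced system or a system with two
root lengths. -/
theorem exists_flat [Nontrivial V] {L : LieSubalgebra K (Module.End K V)}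
    {S : Set (Module.End K V)}
    (hC : Ctx ω L.toSubmodule S) (halt : ω.IsAlt) (hsimple : IsSimple K L)
    {n : ℕ} (hn : 0 < n) (s : Fin n → Module.End K V)
    (hs : ∀ i, s i ∈ L) (hss : ∀ i, s i * s i = 1) (hc : ∀ i j, s i * s j = s j * s i) :
    ∃ (M : Type (max u w)) (_ : AddCommGroup M) (_ : Module K M) (X Φ : Finset M)
      (co : M → Module.Dual K M) (F : Fl L.toSubmodule X Φ co) (t : Fin n → Module.Dual K M),
      (∀ i, s i = F.tor (t i)) ∧ (∀ i, ∀ x ∈ X, t i x = 1 ∨ t i x = -1) ∧
      ((∃ B : LinearMap.BilinForm K M, TR.SL B (t ⟨0, hn⟩) Φ X ∧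
        ∀ a ∈ Φ, ∀ x, co a x = B x a) ∨
      (∃ (B : LinearMap.BilinForm K M) (ΦL ΦS : Finset M), Φ = ΦL ∪ ΦS ∧
        TR.TL B (t ⟨0, hn⟩) ΦL ΦS X ∧ ∀ a ∈ Φ, ∀ x, co a x = TR.co B x a)) := by
  have hnd := hC.nd
  have hk : IsKilling K L := killing_of hnd hC.irr
  obtain ⟨H, hH, hsH⟩ := exists_cartan_family (L := L)
    (fun H hH x hx y hy => by
      have h1 : IsLieAbelian H := inferInstance
      have h2 : ⁅(⟨x, hx⟩ : H), (⟨y, hy⟩ : H)⁆ = 0 := trivial_lie_zero H H _ _
      exact congrArg Subtype.val h2) s hs hss hc
  have hirrR : (rootSystem H).IsIrreducible := inferInstance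
  have hirr : ∀ W : Submodule K V, (∀ x : L, ∀ u ∈ W, ⁅x, u⁆ ∈ W) → W = ⊥ ∨ W = ⊤ :=
    fun W hW => hC.irr.irr W fun z hz w hw => hW ⟨z, hz⟩ w hw
  have hsk : ∀ (x : L) (u v : V), ω ⁅x, u⁆ v = - ω u ⁅x, v⁆ := by
    intro x u v
    exact hC.irr.sk x x.2 u v
  have hfaith : ∀ x : L, (∀ u : V, ⁅x, u⁆ = 0) → x = 0 := by
    intro x hx
    apply Subtype.ext
    ext u
    exact hx u
  have hne : Nonempty H.root := by
    by_contra hcon
    rw [not_nonempty_iff] at hcon
    have hN : Nontrivial H := RootPairing.IsIrreducible.nontrivial' (rootSystem H)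
    have h1 : (⊤ : Submodule K H) = ⊥ := by
      have h2 : (rootSystem H).corootSpan K = ⊤ := RootPairing.IsRootSystem.span_coroot_eq_top
      rw [← h2, RootPairing.corootSpan, Set.range_eq_empty, Submodule.span_empty]
    exact bot_ne_top h1.symm
  obtain ⟨m, ⟨B⟩⟩ := exists_WB (V := V) (H := H) hirr
  have hI : Nonempty (Fin m) := B.v.index_nonempty
  set s' : Fin n → H := fun i => ⟨⟨s i, hs i⟩, hsH i⟩ with hs'
  have hsB : ∀ j i, B.w i (s' j) = 1 ∨ B.w i (s' j) = -1 := by
    intro j i
    have h1 : s j (B.v i) = B.w i (s' j) • B.v i := B.lie_v i (s' j)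
    have h2 : s j (s j (B.v i)) = B.v i := LinearMap.congr_fun (hss j) (B.v i)
    rw [h1, map_smul, h1, smul_smul] at h2
    have h3 : (B.w i (s' j) * B.w i (s' j) - 1) • B.v i = 0 := by
      rw [sub_smul, h2, one_smul, sub_self]
    have h4 := (smul_eq_zero.mp h3).resolve_right (B.v.ne_zero i)
    have h5 : (B.w i (s' j) - 1) * (B.w i (s' j) + 1) = 0 := by linear_combination h4
    rcases mul_eq_zero.mp h5 with h6 | h6
    · left; linear_combination h6
    · right; linear_combination h6
  have hsq : ∀ (α : H.root) (x : L), x ∈ rootSpace H α.1 →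
      toEnd K L V x * toEnd K L V x = 0 :=
    fun α x hx => TR.sq_zero B hfaith (hsB ⟨0, hn⟩) hI α hx
  have hWS := TR.weightSet B hirr hnd hsk hsq
  have hinj := TR.mult_one B hirr hnd hsk hsq
  set X : Finset (Dual K H) := Finset.univ.image B.w with hX
  have hXr : (X : Set (Dual K H)) = Set.range B.w := by
    rw [hX, Finset.coe_image, Finset.coe_univ, Set.image_univ]
  have hpar : TR.Par (rootSystem H) X := TR.par B hirr hnd halt hsk (TR.small B hsq) (by
    intro x hx
    rw [hX, Finset.mem_image] at hx
    obtain ⟨i, -, hi⟩ := hx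
    exact ⟨i, hi⟩)
  have hcases := sl_or_tl (P := rootSystem H) (X := X) (by rw [hXr]; exact hWS)
    ⟨B.w hI.some, Finset.mem_image_of_mem _ (Finset.mem_univ _)⟩
    (Module.Dual.eval K H (s' ⟨0, hn⟩)) (by
      intro x hx
      rw [hX, Finset.mem_image] at hx
      obtain ⟨i, -, rfl⟩ := hx
      exact hsB ⟨0, hn⟩ i) RootPairing.IsRootSystem.span_root_eq_top hpar
  set Φ : Finset (Dual K H) := Finset.univ.image (rootSystem H).root with hΦ
  have hroot : ∀ a ∈ Φ, ∃ α : H.root, (rootSystem H).root α = a := by
    intro a ha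
    obtain ⟨α, -, hα⟩ := Finset.mem_image.mp ha
    exact ⟨α, hα⟩
  choose! rt hrt using hroot
  have hrt' : ∀ α : H.root, rt ((rootSystem H).root α) = α := by
    intro α
    apply (rootSystem H).root.injective
    exact hrt _ (Finset.mem_image_of_mem _ (Finset.mem_univ _))
  have htr : ∀ α : H.root, ∃ e : L, e ∈ rootSpace H α.1 ∧ e ≠ 0 := fun α => by
    obtain ⟨x, hx, hx0⟩ := α.1.exists_ne_zero
    exact ⟨x, hx, hx0⟩
  choose ev hev hev0 using htr
  have hmemX : ∀ i, B.w i ∈ X := fun i => Finset.mem_image_of_mem _ (Finset.mem_univ _)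
  let ε : Fin m ≃ X := Equiv.ofBijective (fun i => ⟨B.w i, hmemX i⟩) ⟨fun i j hij =>
    hinj (congrArg Subtype.val hij), fun x => by
      obtain ⟨i, -, hi⟩ := Finset.mem_image.mp x.2
      exact ⟨i, Subtype.ext hi⟩⟩
  have hε : ∀ x : X, B.w (ε.symm x) = x.1 := by
    intro x
    have h1 : ε (ε.symm x) = x := ε.apply_symm_apply x
    exact congrArg Subtype.val h1
  let tor : Dual K (Dual K H) →ₗ[K] Module.End K V :=
    (L.incl : L →ₗ[K] Module.End K V) ∘ₗ (H.incl : H →ₗ[K] L) ∘ₗ
      ((Module.evalEquiv K H).symm : Dual K (Dual K H) →ₗ[K] H)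
  have htor : ∀ c, tor c = (((Module.evalEquiv K H).symm c : H) : L) := fun c => rfl
  have hcr : ∀ (c : Dual K (Dual K H)) (x : Dual K H), x ((Module.evalEquiv K H).symm c) = c x :=
    fun c x => Module.apply_evalEquiv_symm_apply K H x c
  have hrtα : ∀ a ∈ Φ, (rt a).1.toLinear = a := fun a ha => hrt a ha
  have hco : ∀ a ∈ Φ, (Module.evalEquiv K H).symm ((rootSystem H).coroot' (rt a)) =
      (rootSystem H).coroot (rt a) := by
    intro a _
    rw [LinearEquiv.symm_apply_eq]
    rfl
  let F : Fl L.toSubmodule X Φ (fun a => (rootSystem H).coroot' (rt a)) :=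
    { v := B.v.reindex ε
      tor := tor
      e := fun a => ((ev (rt a) : L) : Module.End K V)
      tor_mem := fun c => (((Module.evalEquiv K H).symm c : H) : L).2
      e_mem := fun a _ => (ev (rt a)).2
      e_ne := fun a _ h0 => hev0 (rt a) (Subtype.ext h0)
      e_sq := fun a _ => hsq _ _ (hev (rt a))
      e_rk := by
        intro a ha
        have h1 := TR.rank_root B hsq (rt a) (hev (rt a)) (hev0 (rt a))
        have h2 : rk (toEnd K L V (ev (rt a))) =
            (X.filter (fun x => (rootSystem H).coroot' (rt a) x = 1)).card := by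
          rw [h1, hX, Finset.filter_image, Finset.card_image_of_injective _ hinj]
          rfl
        exact h2
      tor_v := by
        intro c x
        rw [Basis.reindex_apply, ← hcr c x.1, ← hε x]
        exact B.lie_v (ε.symm x) _
      tor_e := by
        intro c a ha
        have h1 := lie_root (hev (rt a)) ((Module.evalEquiv K H).symm c)
        have h2 := congrArg (fun z : L => (z : Module.End K V)) h1
        have h3 : (rt a).1 ((Module.evalEquiv K H).symm c) = c a := by
          rw [← hcr c a]
          exact LinearMap.congr_fun (hrtα a ha) _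
        rw [h3] at h2
        exact h2
      span := by
        intro z hz
        let U : Submodule K L := (Submodule.span K (Set.range tor ∪
          (fun a => ((ev (rt a) : L) : Module.End K V)) '' (Φ : Set (Dual K H)))).comap
            (L.incl : L →ₗ[K] Module.End K V)
        have hU : ∀ α : Weight K H L, ∀ x ∈ rootSpace H α, x ∈ U := by
          intro α x hx
          by_cases hα : α.IsZero
          · have h1 : (α : H → K) = 0 := hα
            rw [h1] at hx
            have h2 : x ∈ zeroRootSubalgebra K L H := hx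
            rw [zeroRootSubalgebra_eq_of_is_cartan] at h2
            have h3 : tor (Module.evalEquiv K H ⟨x, h2⟩) = (x : Module.End K V) := by
              rw [htor, LinearEquiv.symm_apply_apply]
            refine Submodule.subset_span (Or.inl ⟨_, h3⟩)
          · let α' : H.root := ⟨α, by simpa using hα⟩
            obtain ⟨c, hc'⟩ := mem_line (hev α') (hev0 α') hx
            have h1 : (rootSystem H).root α' ∈ Φ := Finset.mem_image_of_mem _ (Finset.mem_univ _)
            have h2 : (x : Module.End K V) =
                c • ((ev (rt ((rootSystem H).root α')) : L) : Module.End K V) := by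
              rw [hrt' α', hc']
              rfl
            have h3 : c • ((ev (rt ((rootSystem H).root α')) : L) : Module.End K V) ∈
                Submodule.span K (Set.range tor ∪
                  (fun a => ((ev (rt a) : L) : Module.End K V)) '' (Φ : Set (Dual K H))) :=
              Submodule.smul_mem _ _ (Submodule.subset_span (Or.inr ⟨_, h1, rfl⟩))
            rw [← h2] at h3
            exact h3
        exact root_induction (U := U) (H := H) hU ⟨z, hz⟩
      span_co := by
        intro c
        have h0 : (rootSystem H).corootSpan K = ⊤ := RootPairing.IsRootSystem.span_coroot_eq_top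
        have h1 : (Module.evalEquiv K H).symm c ∈ (rootSystem H).corootSpan K := by
          rw [h0]
          exact Submodule.mem_top
        have h2 : c = Module.evalEquiv K H ((Module.evalEquiv K H).symm c) :=
          (LinearEquiv.apply_symm_apply _ _).symm
        rw [h2]
        generalize (Module.evalEquiv K H).symm c = h at h1
        induction h1 using Submodule.span_induction with
        | mem h hh =>
          obtain ⟨α, rfl⟩ := hh
          refine Submodule.subset_span ⟨(rootSystem H).root α,
            Finset.mem_image_of_mem _ (Finset.mem_univ _), ?_⟩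
          simp only [hrt' α]
          rfl
        | zero => rw [map_zero]; exact zero_mem _
        | add a b _ _ ha hb => rw [map_add]; exact add_mem ha hb
        | smul c a _ ha => rw [map_smul]; exact Submodule.smul_mem _ _ ha }
  refine ⟨Dual K H, inferInstance, inferInstance, X, Φ, _, F,
    fun i => Module.Dual.eval K H (s' i), ?_, ?_, ?_⟩
  · intro i
    change s i = tor (Module.Dual.eval K H (s' i))
    rw [htor]
    have h1 : (Module.evalEquiv K H).symm (Module.Dual.eval K H (s' i)) = s' i :=
      (Module.evalEquiv K H).symm_apply_apply (s' i)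
    rw [h1]
  · intro i x hx
    rw [hX, Finset.mem_image] at hx
    obtain ⟨j, -, rfl⟩ := hx
    exact hsB i j
  · rcases hcases with ⟨B', h1, h2⟩ | ⟨B', ΦL, ΦS, h0, h1, h2⟩
    · left
      refine ⟨B', h1, fun a ha x => ?_⟩
      rw [h2, hrt a ha]
    · right
      refine ⟨B', ΦL, ΦS, h0, h1, fun a ha x => ?_⟩
      rw [h2, hrt a ha]

end PR
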