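import Pool.Agent.Helper27.PR.ShDefs
import Pool.Agent.Helper80.TR.Diag

/-!
Slopes given by rational averages of diagonal idempotents; groups of scalars as symmetries.
-/

open Module MTPairs

namespace PR

section Slopes

variable {K : Type*} [Field K] [CharZero K] {m : Type*} [Fintype m] [DecidableEq m]
  {Γ : Subgroup (Equiv.Perm (m → K))} {G : Subgroup (Matrix.GeneralLinearGroup m K)}
  {π : Matrix m m K}

/-- Common denominators. -/
lemma exists_den {κ : Type*} [Fintype κ] (w : κ → ℚ) (hw : ∀ k, 0 ≤ w k) :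
    ∃ Q : ℕ, 0 < Q ∧ ∃ c : κ → ℕ, ∀ k, (c k : ℚ) = Q * w k := by
  classical
  refine ⟨∏ k, (w k).den, Finset.prod_pos fun k _ => (w k).den_pos,
    fun k => (w k).num.toNat * ∏ j ∈ Finset.univ.erase k, (w j).den, fun k => ?_⟩
  have h1 : ((w k).num.toNat : ℚ) = (w k).num := by
    have h2 : 0 ≤ (w k).num := Rat.num_nonneg.mpr (hw k)
    have h3 : (((w k).num.toNat : ℤ) : ℚ) = (w k).num := by
      rw [Int.toNat_of_nonneg h2]
    exact_mod_cast h3
  rw [← Finset.mul_prod_erase Finset.univ (fun k => (w k).den) (Finset.mem_univ k)]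
  push_cast
  rw [h1]
  have h4 : (w k).num = (w k).den * w k := by
    rw [mul_comm]
    exact (Rat.mul_den_eq_num (w k)).symm
  rw [h4]
  ring

/-- The eigenspaces of a diagonal matrix with rational entries. -/
lemma eigen_diag (d : m → ℚ) {Q : ℕ} (hQ : 0 < Q) (l : ℚ) :
    finrank K (Module.End.eigenspace (Q • Matrix.diagonal (fun i => ((d i : ℚ) : K))).mulVecLin
      (((Q : ℚ) * l : ℚ) : K)) = (Finset.univ.val.map d).count l := by
  classical
  have hQK : (Q : K) ≠ 0 := by exact_mod_cast hQ.ne'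
  have h1 : Module.End.eigenspace
      (Q • Matrix.diagonal (fun i => ((d i : ℚ) : K))).mulVecLin (((Q : ℚ) * l : ℚ) : K) =
      TR.coordSub K (Finset.univ.filter fun i => l = d i) := by
    ext v
    rw [Module.End.mem_eigenspace_iff, TR.mem_coordSub, Matrix.mulVecLin_apply]
    have h2 : ∀ i, ((Q • Matrix.diagonal (fun i => ((d i : ℚ) : K))).mulVec v) i =
        (Q : K) * ((d i : ℚ) : K) * v i := by
      intro i
      rw [Matrix.smul_mulVec, Pi.smul_apply, Matrix.mulVec_diagonal, nsmul_eq_mul, mul_assoc]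
    constructor
    · intro h i hi
      have h3 := congrFun h i
      rw [h2, Pi.smul_apply, smul_eq_mul] at h3
      push_cast at h3
      have h4 : (Q : K) * (((d i : ℚ) : K) - ((l : ℚ) : K)) * v i = 0 := by
        linear_combination h3
      rcases mul_eq_zero.mp h4 with h5 | h5
      · exfalso
        have h6 := (mul_eq_zero.mp h5).resolve_left hQK
        apply hi
        rw [Finset.mem_filter]
        refine ⟨Finset.mem_univ _, ?_⟩
        have h7 : ((d i : ℚ) : K) = ((l : ℚ) : K) := sub_eq_zero.mp h6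
        exact_mod_cast h7.symm
      · exact h5
    · intro h
      funext i
      rw [h2, Pi.smul_apply, smul_eq_mul]
      push_cast
      by_cases hi : l = d i
      · rw [← hi]
      · rw [h i (by rw [Finset.mem_filter]; exact fun h3 => hi h3.2), mul_zero, mul_zero]
  rw [h1, TR.finrank_coordSub, Multiset.count_map]
  rfl

/-- Sums over the indices with positive coefficients. -/
lemma sum_pos' {κ A : Type*} [Fintype κ] [AddCommMonoid A] (c : κ → ℕ) (f : κ → A)
    (hf : ∀ k, c k = 0 → f k = 0) : ∑ k : {k // 0 < c k}, f k.1 = ∑ k, f k := by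
  classical
  rw [← Finset.sum_subtype (Finset.univ.filter (fun k => 0 < c k)) (by simp) f,
    Finset.sum_filter]
  refine Finset.sum_congr rfl fun k _ => ?_
  split_ifs with h
  · rfl
  · exact (hf k (by omega)).symm

/-- **Slopes of a rational average of diagonal idempotents.** -/
theorem hasSlopes_diag {κ : Type*} [Fintype κ] (w : κ → ℚ) (hw : ∀ k, 0 ≤ w k)
    (hw1 : ∑ k, w k = 1) (S : κ → m → Prop) [∀ k i, Decidable (S k i)]
    (hconj : ∀ k, 0 < w k → IsConj Γ G π (Matrix.diagonal (fun i => if S k i then 1 else 0)))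
    (d : m → ℚ) (hd : ∀ i, d i = ∑ k, if S k i then w k else 0)
    (hsemi : ∀ θ ∈ Γ, IsSemilinear θ)
    (hrat : ∀ θ ∈ Γ, ∃ g ∈ G, ∀ v : m → K,
      (Matrix.diagonal (fun i => ((d i : ℚ) : K))).mulVec ((g : Matrix m m K).mulVec (θ v)) =
        (g : Matrix m m K).mulVec (θ ((Matrix.diagonal (fun i => ((d i : ℚ) : K))).mulVec v))) :
    HasSlopes Γ G π (Finset.univ.val.map d) := by
  classical
  obtain ⟨Q, hQ, c, hc⟩ := exists_den w hw
  have hcpos : ∀ k, 0 < c k ↔ 0 < w k := by
    intro k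
    have hQ' : (0 : ℚ) < Q := by exact_mod_cast hQ
    constructor
    · intro h
      have h1 : (0 : ℚ) < c k := by exact_mod_cast h
      rw [hc k] at h1
      exact (mul_pos_iff_of_pos_left hQ').mp h1
    · intro h
      have h1 : (0 : ℚ) < c k := by
        rw [hc k]; exact mul_pos hQ' h
      exact_mod_cast h1
  let e : Fin (Fintype.card {k // 0 < c k}) ≃ {k // 0 < c k} := (Fintype.equivFin _).symm
  let P : κ → Matrix m m K := fun k => Matrix.diagonal (fun i => if S k i then 1 else 0)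
  -- sums over the family
  have hsumP : ∑ i, c (e i).1 • P (e i).1 = Q • Matrix.diagonal (fun i => ((d i : ℚ) : K)) := by
    rw [e.sum_comp (fun k : {k // 0 < c k} => c k.1 • P k.1)]
    have h1 : ∑ k : {k // 0 < c k}, c k.1 • P k.1 = ∑ k, c k • P k :=
      sum_pos' c (fun k => c k • P k) (fun k hk => by simp only [hk, zero_smul])
    rw [h1]
    ext i j
    rw [Matrix.sum_apply, Matrix.smul_apply]
    by_cases hij : i = j
    · subst hij
      rw [Matrix.diagonal_apply_eq, nsmul_eq_mul]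
      have h2 : ∀ k, (c k • P k) i i = (((Q : ℚ) * (if S k i then w k else 0) : ℚ) : K) := by
        intro k
        have h4 : P k i i = if S k i then 1 else 0 := Matrix.diagonal_apply_eq _ _
        rw [Matrix.smul_apply, h4, nsmul_eq_mul]
        split_ifs with h3
        · rw [← hc k, mul_one, Rat.cast_natCast]
        · rw [mul_zero, mul_zero, Rat.cast_zero]
      rw [Finset.sum_congr rfl (fun k _ => h2 k), hd i]
      push_cast
      rw [Finset.mul_sum]
    · rw [Matrix.diagonal_apply_ne _ hij, smul_zero]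
      refine Finset.sum_eq_zero fun k _ => ?_
      have h4 : P k i j = 0 := Matrix.diagonal_apply_ne _ hij
      rw [Matrix.smul_apply, h4, smul_zero]
  have hsumc : ∑ i, c (e i).1 = Q := by
    rw [e.sum_comp (fun k : {k // 0 < c k} => c k.1)]
    have h1 : ∑ k : {k // 0 < c k}, c k.1 = ∑ k, c k :=
      sum_pos' c (fun k => c k) (fun k hk => hk)
    rw [h1]
    have h2 : ((∑ k, c k : ℕ) : ℚ) = Q := by
      push_cast
      rw [Finset.sum_congr rfl (fun k _ => hc k), ← Finset.mul_sum, hw1, mul_one]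
    exact_mod_cast h2
  refine ⟨Fintype.card {k // 0 < c k}, fun i => c (e i).1, fun i => P (e i).1, ?_, ?_, ?_, ?_, ?_⟩
  · intro i
    exact ⟨(e i).2, hconj _ ((hcpos _).mp (e i).2)⟩
  · intro i j
    rw [Matrix.diagonal_mul_diagonal, Matrix.diagonal_mul_diagonal]
    congr 1
    funext a
    ring
  · intro θ hθ
    obtain ⟨g, hg, h1⟩ := hrat θ hθ
    refine ⟨g, hg, fun v => ?_⟩
    rw [hsumP, Matrix.smul_mulVec, Matrix.smul_mulVec, h1 v]
    obtain ⟨σ, h2, h3⟩ := hsemi θ hθ
    have h4 : ∀ v, θ (Q • v) = Q • θ v := by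
      intro v
      rw [← Nat.cast_smul_eq_nsmul K, h3, map_natCast, Nat.cast_smul_eq_nsmul]
    rw [h4, Matrix.mulVec_smul]
  · rw [Multiset.card_map]
    rfl
  · intro l
    have h1 := eigen_diag (K := K) d hQ l
    rw [← hsumP, ← hsumc] at h1
    exact h1

end Slopes

section Scalars

variable {K : Type*} [Field K] {m : Type*} [Fintype m] [DecidableEq m]

/-- The group of the scalars `ζ` with `ζ ^ N = 1`. -/
def scal (K : Type*) [Field K] (m : Type*) (N : ℕ) : Subgroup (Equiv.Perm (m → K)) :=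
  (rootsOfUnity N K).map (MulAction.toPermHom Kˣ (m → K))

omit [Fintype m] [DecidableEq m] in
lemma mem_scal {N : ℕ} {θ : Equiv.Perm (m → K)} : θ ∈ scal K m N ↔
    ∃ ζ : Kˣ, ζ ^ N = 1 ∧ ∀ v, θ v = (ζ : K) • v := by
  rw [scal, Subgroup.mem_map]
  constructor
  · rintro ⟨ζ, h1, rfl⟩
    exact ⟨ζ, (mem_rootsOfUnity N ζ).mp h1, fun v => rfl⟩
  · rintro ⟨ζ, h1, h2⟩
    refine ⟨ζ, (mem_rootsOfUnity N ζ).mpr h1, ?_⟩
    ext1 v
    exact (h2 v).symm

omit [Fintype m] [DecidableEq m] in
lemma card_scal [CharZero K] [IsAlgClosed K] [Nonempty m] {N : ℕ} (hN : 0 < N) :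
    Nat.card (scal K m N) = N := by
  have : NeZero N := ⟨hN.ne'⟩
  have : NeZero (N : K) := ⟨by exact_mod_cast hN.ne'⟩
  have hinj : Function.Injective (MulAction.toPermHom Kˣ (m → K)) := by
    intro a b hab
    have h1 : (MulAction.toPermHom Kˣ (m → K) a) (fun _ => 1) =
      (MulAction.toPermHom Kˣ (m → K) b) (fun _ => 1) := by rw [hab]
    have h2 := congrFun h1 (Classical.arbitrary m)
    have h3 : (a : K) * 1 = (b : K) * 1 := h2
    rw [mul_one, mul_one] at h3
    exact Units.ext h3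
  have h1 : Nat.card (scal K m N) = Nat.card (rootsOfUnity N K) :=
    Nat.card_congr ((Subgroup.equivMapOfInjective _ _ hinj).symm.toEquiv)
  rw [h1]
  exact HasEnoughRootsOfUnity.natCard_rootsOfUnity K N

omit [Fintype m] [DecidableEq m] in
lemma semi_scal {N : ℕ} : ∀ θ ∈ scal K m N, IsSemilinear θ := by
  intro θ hθ
  obtain ⟨ζ, -, h⟩ := mem_scal.mp hθ
  refine ⟨RingEquiv.refl K, fun v w => ?_, fun c v => ?_⟩
  · rw [h, h, h, smul_add]
  · rw [h, h, RingEquiv.refl_apply, smul_comm]

/-- **Examples with scalars as symmetries.** -/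
theorem bad_scalars {K : Type*} [Field K] [CharZero K] [IsAlgClosed K] {m : Type} [Fintype m]
    [DecidableEq m] [Nonempty m] {J : Matrix m m K}
    {G : Subgroup (Matrix.GeneralLinearGroup m K)} {π : Matrix m m K} (hG : IsMTPair J G)
    (hirr : IsIrr G) (hπ : IsCochar G π) {κ : Type*} [Fintype κ] (w : κ → ℚ)
    (hw : ∀ k, 0 ≤ w k) (hw1 : ∑ k, w k = 1) (S : κ → m → Prop) [∀ k i, Decidable (S k i)]
    (hconj : ∀ k, 0 < w k → ∃ g ∈ G,
      Matrix.diagonal (fun i => if S k i then (1 : K) else 0) * (g : Matrix m m K) =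
        (g : Matrix m m K) * π)
    (d : m → ℚ) (hd : ∀ i, d i = ∑ k, if S k i then w k else 0)
    (hnot : ∃ g : Matrix.GeneralLinearGroup m K,
      (∃ c : K, (g : Matrix m m K).transpose * J * (g : Matrix m m K) = c • J) ∧ g ∉ G)
    {N : ℕ} (hN : 0 < N) : Bad K (Finset.univ.val.map d) N := by
  refine ⟨m, inferInstance, inferInstance, scal K m N, J, G, π, ⟨hG, semi_scal, ?_⟩, hirr, hπ,
    ?_, ?_, hnot⟩
  · intro θ hθ g hg
    obtain ⟨ζ, -, h⟩ := mem_scal.mp hθ
    exact ⟨g, hg, fun v => by rw [h, h, Matrix.mulVec_smul]⟩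
  · refine hasSlopes_diag w hw hw1 S ?_ d hd semi_scal ?_
    · intro k hk
      obtain ⟨g, hg, h⟩ := hconj k hk
      refine ⟨1, Subgroup.one_mem _, g, hg, fun v => ?_⟩
      rw [Equiv.Perm.one_apply, Equiv.Perm.one_apply, Matrix.mulVec_mulVec,
        Matrix.mulVec_mulVec, h]
    · intro θ hθ
      obtain ⟨ζ, -, h⟩ := mem_scal.mp hθ
      refine ⟨1, Subgroup.one_mem _, fun v => ?_⟩
      rw [Units.val_one, Matrix.one_mulVec, Matrix.one_mulVec, h, h, Matrix.mulVec_smul]
  · refine ⟨⊥, bot_le, ?_, ?_⟩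
    · rw [Subgroup.relIndex_bot_left, card_scal hN]
    · intro θ hθ
      rw [Subgroup.mem_bot] at hθ
      refine ⟨1, Subgroup.one_mem _, fun v => ?_⟩
      rw [hθ, Units.val_one, Matrix.one_mulVec, Matrix.one_mulVec]
      rfl

end Scalars

end PR
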