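import Pool.Agent.Helper43.PR.ShGen
import Pool.Agent.Helper21.TR.Wedge
import Pool.Agent.Helper93.SR.Ten2

/-!
The group of the middle exterior power: permutations, scalars and the star operator.
-/

open Module MTPairs

namespace PR

open TR.W3 TR.Wdg

section Gen

variable {K : Type*} [Field K] [CharZero K] {n : ℕ}

/-- The group. -/
noncomputable def Gw (K : Type*) [Field K] (n : ℕ) :
    Subgroup (Matrix.GeneralLinearGroup (Ix (Fin (2 * n)) n) K) :=
  GenG (Lam K (Fin (2 * n)) n)

omit [CharZero K] in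
lemma Gw_pair (hn : Odd n) : IsMTPair (Jw K n) (Gw K n) :=
  isMTPair_gen (Jw_transpose hn) (Jw_det hn) Lam_idem Lam_lag

omit [CharZero K] in
lemma Gw_cochar {π : Matrix (Ix (Fin (2 * n)) n) (Ix (Fin (2 * n)) n) K}
    (h : π ∈ Lam K (Fin (2 * n)) n) : IsCochar (Gw K n) π := GenG_cochar (Lam_idem _ h) h

lemma Gw_irr : IsIrr (Gw K n) := by
  intro U hU
  apply irr
  intro π hπ v hv
  obtain ⟨g, hg, hgt⟩ := (Gw_cochar hπ).2 2 two_ne_zero
  have h1 := hU g hg v hv
  have h2 : (g : Matrix _ _ K).mulVec v = π.mulVec v + v := by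
    rw [hgt]
    have : (2 : K) • π + (1 - π) = π + 1 := by rw [two_smul]; abel
    rw [this, Matrix.add_mulVec, Matrix.one_mulVec]
  rw [h2] at h1
  have := U.sub_mem h1 hv
  rwa [add_sub_cancel_right] at this

lemma Gw_not (hn : Odd n) (h3 : 3 ≤ n) :
    ∃ g : Matrix.GeneralLinearGroup (Ix (Fin (2 * n)) n) K,
      (∃ c : K, (g : Matrix _ _ K).transpose * Jw K n * (g : Matrix _ _ K) = c • Jw K n) ∧
        g ∉ Gw K n := by
  obtain ⟨g, hg, hgd⟩ := exists_not_nor (K := K) hn h3
  exact ⟨g, ⟨1, hg⟩, fun h => hgd (GenG_le (TR.Nor_closed _) Lam_nor h)⟩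

omit [CharZero K] in
/-- Transpositions. -/
lemma we_all {i j : Fin (2 * n)} (h : i ≠ j) (l : Fin (2 * n)) :
    M K n (Equiv.swap i j l) (Equiv.swap i j l) *
      (we K n h : Matrix (Ix (Fin (2 * n)) n) (Ix (Fin (2 * n)) n) K) =
      (we K n h : Matrix (Ix (Fin (2 * n)) n) (Ix (Fin (2 * n)) n) K) * M K n l l := by
  have e : (we K n h : Matrix (Ix (Fin (2 * n)) n) (Ix (Fin (2 * n)) n) K) =
      (1 + M K n i j) * (1 - M K n j i) * (1 + M K n i j) := rfl
  have hcomm : ∀ A : Matrix (Ix (Fin (2 * n)) n) (Ix (Fin (2 * n)) n) K,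
      A * M K n i j = M K n i j * A → A * M K n j i = M K n j i * A →
      A * ((1 + M K n i j) * (1 - M K n j i) * (1 + M K n i j)) =
        ((1 + M K n i j) * (1 - M K n j i) * (1 + M K n i j)) * A := by
    intro A h1 h2
    have c1 : Commute A (1 + M K n i j) := (Commute.one_right A).add_right h1
    have c2 : Commute A (1 - M K n j i) := (Commute.one_right A).sub_right h2
    exact (c1.mul_right c2).mul_right c1
  have hsum := hcomm (M K n i i + M K n j j) (by
    have h1 := M_comm (K := K) (k := n) i i i j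
    have h2 := M_comm (K := K) (k := n) j j i j
    rw [if_pos rfl, if_neg h.symm, sub_zero] at h1
    rw [if_neg h.symm, if_pos rfl, zero_sub] at h2
    rw [sub_eq_iff_eq_add] at h1 h2
    rw [add_mul, mul_add, h1, h2]; abel) (by
    have h1 := M_comm (K := K) (k := n) i i j i
    have h2 := M_comm (K := K) (k := n) j j j i
    rw [if_neg h, if_pos rfl, zero_sub] at h1
    rw [if_pos rfl, if_neg h, sub_zero] at h2
    rw [sub_eq_iff_eq_add] at h1 h2
    rw [add_mul, mul_add, h1, h2]; abel)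
  by_cases hi : l = i
  · rw [hi, Equiv.swap_apply_left]
    have h1 := we_conj (K := K) (k := n) h
    rw [e] at h1 ⊢
    generalize (1 + M K n i j) * (1 - M K n j i) * (1 + M K n i j) = W at *
    rw [add_mul, mul_add, h1, add_comm] at hsum
    exact add_right_cancel hsum
  by_cases hj : l = j
  · rw [hj, Equiv.swap_apply_right]
    exact (we_conj h).symm
  · rw [Equiv.swap_apply_of_ne_of_ne hi hj, e]
    apply hcomm
    · have h1 := M_comm (K := K) (k := n) l l i j
      rw [if_neg hi, if_neg (Ne.symm hj), sub_zero] at h1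
      exact sub_eq_zero.mp h1
    · have h1 := M_comm (K := K) (k := n) l l j i
      rw [if_neg hj, if_neg (Ne.symm hi), sub_zero] at h1
      exact sub_eq_zero.mp h1

/-- Permutations. -/
lemma Gw_perm (e : Equiv.Perm (Fin (2 * n))) : ∃ g ∈ Gw K n, ∀ i,
    M K n (e i) (e i) * (g : Matrix (Ix (Fin (2 * n)) n) (Ix (Fin (2 * n)) n) K) =
      (g : Matrix (Ix (Fin (2 * n)) n) (Ix (Fin (2 * n)) n) K) * M K n i i := by
  induction e using Equiv.Perm.swap_induction_on with
  | one => exact ⟨1, Subgroup.one_mem _, fun i => by simp⟩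
  | swap_mul f a b hab ih =>
    obtain ⟨g, hg, h⟩ := ih
    refine ⟨we K n hab * g, Subgroup.mul_mem _ (we_mem hab) hg, fun i => ?_⟩
    rw [Equiv.Perm.mul_apply, Units.val_mul, ← mul_assoc, we_all hab, mul_assoc, h, mul_assoc]

omit [CharZero K] in
/-- Products of the diagonal cocharacters. -/
lemma Gw_diag {s : K} (hs : s ≠ 0) (T : Finset (Fin (2 * n))) : ∃ g ∈ Gw K n,
    (g : Matrix (Ix (Fin (2 * n)) n) (Ix (Fin (2 * n)) n) K) =
      Matrix.diagonal (fun I => s ^ (I.1 ∩ T).card) := by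
  induction T using Finset.induction_on with
  | empty =>
    refine ⟨1, Subgroup.one_mem _, ?_⟩
    simp
  | insert a T ha ih =>
    obtain ⟨g, hg, h⟩ := ih
    obtain ⟨g', hg', h'⟩ := (Gw_cochar (K := K) (n := n) (Or.inl ⟨a, rfl⟩)).2 s hs
    refine ⟨g' * g, Subgroup.mul_mem _ hg' hg, ?_⟩
    rw [Units.val_mul, h, h', M_same, ← Matrix.diagonal_one, Matrix.diagonal_sub,
      ← Matrix.diagonal_smul, Matrix.diagonal_add, Matrix.diagonal_mul_diagonal]
    congr 1
    funext I
    rw [Pi.smul_apply, smul_eq_mul]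
    by_cases hI : a ∈ I.1
    · rw [if_pos hI, Finset.inter_insert_of_mem hI, Finset.card_insert_of_notMem (fun h1 =>
        ha (Finset.mem_inter.mp h1).2), pow_succ]
      ring
    · rw [if_neg hI, Finset.inter_insert_of_notMem hI]
      ring

omit [CharZero K] in
/-- Scalars. -/
lemma Gw_scalar [IsAlgClosed K] (hn : 0 < n) {t : K} (ht : t ≠ 0) : ∃ g ∈ Gw K n,
    (g : Matrix (Ix (Fin (2 * n)) n) (Ix (Fin (2 * n)) n) K) = t • 1 := by
  obtain ⟨s, hs⟩ := IsAlgClosed.exists_pow_nat_eq t hn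
  have hs0 : s ≠ 0 := by
    rintro rfl
    rw [zero_pow hn.ne'] at hs
    exact ht hs.symm
  obtain ⟨g, hg, h⟩ := Gw_diag (n := n) hs0 Finset.univ
  refine ⟨g, hg, ?_⟩
  rw [h, ← Matrix.diagonal_one, ← Matrix.diagonal_smul]
  congr 1
  funext I
  rw [Finset.inter_univ, I.2, hs]
  simp

omit [CharZero K] in
/-- The transpose of a root vector. -/
lemma M_transpose (i j : Fin (2 * n)) : (M K n i j).transpose = M K n j i := by
  have key : ∀ (i j : Fin (2 * n)) (S T : Ix (Fin (2 * n)) n),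
      (i ∈ S.1 ∧ j ∉ S.1.erase i ∧ T.1 = insert j (S.1.erase i)) →
      (j ∈ T.1 ∧ i ∉ T.1.erase j ∧ S.1 = insert i (T.1.erase j)) ∧
        sg K j T.1 * sg K i (T.1.erase j) = sg K i S.1 * sg K j (S.1.erase i) := by
    rintro i j S T ⟨h1, h2, h3⟩
    have h4 : T.1.erase j = S.1.erase i := by rw [h3, Finset.erase_insert h2]
    have h5 : j ∈ T.1 := by rw [h3]; exact Finset.mem_insert_self _ _
    refine ⟨⟨h5, by rw [h4]; exact Finset.notMem_erase _ _, by
      rw [h4, Finset.insert_erase h1]⟩, ?_⟩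
    have h6 := sg_erase (K := K) (i := i) h1
    have h7 := sg_erase (K := K) (i := j) h5
    rw [ch_self, one_mul] at h6 h7
    rw [← h6, ← h7, h4]; ring
  ext S T
  rw [Matrix.transpose_apply, M_apply, M_apply]
  by_cases h : i ∈ T.1 ∧ j ∉ T.1.erase i ∧ S.1 = insert j (T.1.erase i)
  · obtain ⟨h1, h2⟩ := key i j T S h
    rw [if_pos h, if_pos h1, h2]
  · rw [if_neg h, if_neg (fun h1 => h (key j i S T h1).1)]

omit [CharZero K] in
lemma cochar_conj {m : Type*} [Fintype m] [DecidableEq m]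
    {G : Subgroup (Matrix.GeneralLinearGroup m K)} {π : Matrix m m K} (h : IsCochar G π)
    {g : Matrix.GeneralLinearGroup m K} (hg : g ∈ G) : IsCochar G ((g : Matrix m m K) * π *
      ((g⁻¹ : Matrix.GeneralLinearGroup m K) : Matrix m m K)) := by
  have h1 : ((g⁻¹ : Matrix.GeneralLinearGroup m K) : Matrix m m K) * (g : Matrix m m K) = 1 :=
    Units.inv_mul g
  have h2 : (g : Matrix m m K) * ((g⁻¹ : Matrix.GeneralLinearGroup m K) : Matrix m m K) = 1 :=
    Units.mul_inv g
  refine ⟨?_, fun t ht => ?_⟩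
  · calc (g : Matrix m m K) * π * ((g⁻¹ : Matrix.GeneralLinearGroup m K) : Matrix m m K) *
          ((g : Matrix m m K) * π * ((g⁻¹ : Matrix.GeneralLinearGroup m K) : Matrix m m K)) =
        (g : Matrix m m K) * π * (((g⁻¹ : Matrix.GeneralLinearGroup m K) : Matrix m m K) *
          (g : Matrix m m K)) * π * ((g⁻¹ : Matrix.GeneralLinearGroup m K) : Matrix m m K) := by
          simp only [mul_assoc]
      _ = _ := by rw [h1, mul_one, mul_assoc (g : Matrix m m K) π π, h.1]
  · obtain ⟨u, hu, hut⟩ := h.2 t ht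
    refine ⟨g * u * g⁻¹, G.mul_mem (G.mul_mem hg hu) (G.inv_mem hg), ?_⟩
    rw [Units.val_mul, Units.val_mul, hut]
    simp only [mul_add, add_mul, mul_sub, sub_mul, mul_smul_comm, smul_mul_assoc, mul_one, h2]

lemma Gw_cochar_transpose {π : Matrix (Ix (Fin (2 * n)) n) (Ix (Fin (2 * n)) n) K}
    (h : π ∈ Lam K (Fin (2 * n)) n) : IsCochar (Gw K n) π.transpose := by
  rcases h with ⟨i, rfl⟩ | ⟨i, j, hij, rfl⟩
  · rw [M_transpose]
    exact Gw_cochar (Or.inl ⟨i, rfl⟩)
  · have h1 := cochar_conj (Gw_cochar (K := K) (n := n) (Or.inl ⟨i, rfl⟩))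
      (un_mem (K := K) (k := n) hij.symm)
    have h2 : ((un K n hij.symm : Matrix.GeneralLinearGroup (Ix (Fin (2 * n)) n) K) :
        Matrix (Ix (Fin (2 * n)) n) (Ix (Fin (2 * n)) n) K) * M K n i i *
        (((un K n hij.symm)⁻¹ : Matrix.GeneralLinearGroup (Ix (Fin (2 * n)) n) K) :
        Matrix (Ix (Fin (2 * n)) n) (Ix (Fin (2 * n)) n) K) =
        (M K n i i + M K n i j).transpose := by
      change (1 + M K n j i) * M K n i i * (1 - M K n j i) = _
      rw [Matrix.transpose_add, M_transpose, M_transpose]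
      have e1 : M K n j i * M K n i i = M K n j i := M_mul_same
      have e2 : M K n i i * M K n j i = 0 := M_same_mul hij.symm
      calc (1 + M K n j i) * M K n i i * (1 - M K n j i) = M K n i i + M K n j i * M K n i i -
            M K n i i * M K n j i - M K n j i * (M K n i i * M K n j i) := by noncomm_ring
        _ = _ := by rw [e1, e2, mul_zero, sub_zero, sub_zero]
    rw [h2] at h1
    exact h1

/-- The star operator. -/
noncomputable def st (K : Type*) [Field K] {n : ℕ} (hn : Odd n) :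
    Matrix.GeneralLinearGroup (Ix (Fin (2 * n)) n) K where
  val := Jw K n
  inv := -Jw K n
  val_inv := by rw [mul_neg, Jw_sq hn, neg_neg]
  inv_val := by rw [neg_mul, Jw_sq hn, neg_neg]

/-- The star operator normalises the group. -/
lemma Gw_norm [IsAlgClosed K] (hn : Odd n) {g : Matrix.GeneralLinearGroup (Ix (Fin (2 * n)) n) K}
    (hg : g ∈ Gw K n) : st K hn * g * (st K hn)⁻¹ ∈ Gw K n := by
  have hle : Gw K n ≤ (Gw K n).comap (MulAut.conj (st K hn)).toMonoidHom := by
    apply GenG_le (MTP.closed_conj (GenG_closed _) _)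
    intro π hπ
    refine ⟨Lam_idem π hπ, fun t ht => ?_⟩
    obtain ⟨u, hu, hut⟩ := (Gw_cochar hπ).2 t ht
    refine ⟨u, ?_, hut⟩
    rw [Subgroup.mem_comap]
    obtain ⟨v, hv, hvt⟩ := (Gw_cochar_transpose hπ).2 t⁻¹ (inv_ne_zero ht)
    obtain ⟨c, hc, hct⟩ := Gw_scalar (K := K) (n := n) hn.pos ht
    have e : (MulAut.conj (st K hn)).toMonoidHom u = c * v := by
      apply Units.ext
      change Jw K n * (u : Matrix _ _ K) * (-Jw K n) = _
      rw [Units.val_mul, hct, hvt, hut]
      have h1 := Lam_lag π hπ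
      have h2 : Jw K n * π = Jw K n - π.transpose * Jw K n := eq_sub_of_add_eq' h1
      have h3 := Jw_sq (K := K) hn
      have h4 : Jw K n * π * Jw K n = -1 + π.transpose := by
        rw [h2, sub_mul, h3, mul_assoc, h3, mul_neg, mul_one, sub_neg_eq_add]
      have h5 : Jw K n * (t • π + (1 - π)) * (-Jw K n) =
          -(t • (Jw K n * π * Jw K n) + (Jw K n * Jw K n - Jw K n * π * Jw K n)) := by
        simp only [mul_add, add_mul, mul_sub, sub_mul, mul_neg, mul_smul_comm, smul_mul_assoc,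
          mul_one]
      have h6 : t • (t⁻¹ • π.transpose + (1 - π.transpose)) =
          π.transpose + t • (1 - π.transpose) := by
        rw [smul_add, smul_smul, mul_inv_cancel₀ ht, one_smul]
      rw [h5, h4, h3, smul_mul_assoc, one_mul, h6]
      module
    rw [e]
    exact Subgroup.mul_mem _ hc hv
  exact hle hg

/-- The diagonal matrix of the slopes. -/
lemma diag_eq (a : ℚ) (x : Fin (2 * n) → ℚ) :
    Matrix.diagonal (fun I : Ix (Fin (2 * n)) n => ((a + ∑ i ∈ I.1, x i : ℚ) : K)) =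
      (a : K) • 1 + ∑ i, (x i : K) • M K n i i := by
  ext I T
  rw [Matrix.add_apply, Matrix.sum_apply, Matrix.smul_apply]
  by_cases h : I = T
  · subst h
    rw [Matrix.diagonal_apply_eq, Matrix.one_apply_eq, smul_eq_mul, mul_one]
    push_cast
    congr 1
    rw [← Finset.sum_ite_mem_eq]
    refine Finset.sum_congr rfl fun i _ => ?_
    rw [Matrix.smul_apply, M_same, Matrix.diagonal_apply_eq, smul_eq_mul]
    split_ifs <;> simp
  · rw [Matrix.diagonal_apply_ne _ h, Matrix.one_apply_ne h, smul_zero, zero_add]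
    refine (Finset.sum_eq_zero fun i _ => ?_).symm
    rw [Matrix.smul_apply, M_same, Matrix.diagonal_apply_ne _ h, smul_zero]

omit [CharZero K] in
lemma M_Jw (i : Fin (2 * n)) : M K n i i * Jw K n = Jw K n - Jw K n * M K n i i := by
  have h := M_skew_same (K := K) (m := n) i
  rw [M_transpose] at h
  exact eq_sub_of_add_eq h

end Gen

/-- The multiset of the slopes. -/
lemma map_slopes {n : ℕ} (f : Finset (Fin (2 * n)) → ℚ) :
    (Finset.univ : Finset (Ix (Fin (2 * n)) n)).val.map (fun I => f I.1) =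
      (Finset.powersetCard n Finset.univ).val.map f := by
  have h : (Finset.powersetCard n (Finset.univ : Finset (Fin (2 * n)))) =
      (Finset.univ : Finset (Ix (Fin (2 * n)) n)).map ⟨Subtype.val, Subtype.val_injective⟩ := by
    ext I
    simp
  rw [h, Finset.map_val, Multiset.map_map]
  rfl

section One

variable {K : Type*} [Field K] [CharZero K] [IsAlgClosed K] {n : ℕ}

/-- The first case. -/
theorem wedge_one (hn : Odd n) (h3 : 3 ≤ n) (x : Fin (2 * n) → ℚ) (hx : ∀ i, 0 ≤ x i)
    (hx1 : ∑ i, x i = 1) {N : ℕ} (hN : 0 < N) :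
    Bad K ((Finset.powersetCard n Finset.univ).val.map (fun I => ∑ i ∈ I, x i)) N := by
  classical
  rw [← map_slopes]
  set i0 : Fin (2 * n) := ⟨0, by omega⟩
  have hne : Nonempty (Ix (Fin (2 * n)) n) := by
    obtain ⟨S, -, hS⟩ : ∃ S : Finset (Fin (2 * n)), S ⊆ Finset.univ ∧ S.card = n :=
      Finset.exists_subset_card_eq (by rw [Finset.card_univ, Fintype.card_fin]; omega)
    exact ⟨⟨S, hS⟩⟩
  refine bad_scalars (Gw_pair hn) Gw_irr (Gw_cochar (Or.inl ⟨i0, rfl⟩)) x hx hx1
    (fun i I => i ∈ I.1) ?_ _ ?_ (Gw_not hn h3) hN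
  · intro i _
    obtain ⟨g, hg, h⟩ := Gw_perm (K := K) (Equiv.swap i0 i)
    refine ⟨g, hg, ?_⟩
    have h1 := h i0
    rw [Equiv.swap_apply_left] at h1
    rw [← M_same]
    exact h1
  · intro I
    rw [← Finset.sum_ite_mem_eq]

end One

end PR
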