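import Pool.Agent.Helper43.PR.Cube

/-!
Involutions of the Cartan subalgebra in the half spin and spin cases.
-/

open Module

namespace PR

variable {K : Type*} [Field K] [CharZero K] {V : Type*} [AddCommGroup V] [Module K V]
  {M : Type*} [AddCommGroup M] [Module K M] {L : Submodule K (Module.End K V)}
  {X Φ : Finset M} {co : M → Module.Dual K M}

omit [CharZero K] in
/-- The coroots separate points. -/
lemma Fl.zero_of (F : Fl L X Φ co) {m : M} (hm : ∀ a ∈ Φ, co a m = 0) : m = 0 := by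
  rw [← Module.forall_dual_apply_eq_zero_iff K]
  intro c
  have h1 := F.span_co c
  induction h1 using Submodule.span_induction with
  | mem c hc =>
    obtain ⟨a, ha, rfl⟩ := hc
    exact hm a ha
  | zero => rfl
  | add a b _ _ ha hb => rw [LinearMap.add_apply, ha, hb, add_zero]
  | smul c a _ ha => rw [LinearMap.smul_apply, ha, smul_zero]

omit [CharZero K] in
/-- Changing all signs. -/
lemma sum_compl {J : Type*} [Fintype J] [DecidableEq J] (ε : J → M) (I : Finset J) {x : M}
    (h : -x + -x = ∑ j, (if j ∈ I then (-1 : K) else 1) • ε j) :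
    x + x = ∑ j, (if j ∈ Iᶜ then (-1 : K) else 1) • ε j := by
  have h1 : x + x = -∑ j, (if j ∈ I then (-1 : K) else 1) • ε j := by
    rw [← h]; abel
  rw [h1, ← Finset.sum_neg_distrib]
  refine Finset.sum_congr rfl fun j _ => ?_
  by_cases hj : j ∈ I
  · rw [if_pos hj, if_neg (by simpa using hj), neg_one_smul, one_smul, neg_neg]
  · rw [if_neg hj, if_pos (by simpa using hj), neg_one_smul, one_smul]

omit [CharZero K] in
/-- Adjusting the parity with a dummy element. -/
lemma sum_parity {J : Type*} [Fintype J] [DecidableEq J] (ε : Option J → M) (h0 : ε none = 0)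
    (I : Finset (Option J)) {x : M}
    (h : x + x = ∑ j, (if j ∈ I then (-1 : K) else 1) • ε j) :
    ∃ I' : Finset (Option J), Even I'.card ∧
      x + x = ∑ j, (if j ∈ I' then (-1 : K) else 1) • ε j := by
  by_cases hev : Even I.card
  · exact ⟨I, hev, h⟩
  rw [Nat.not_even_iff_odd] at hev
  by_cases hn : none ∈ I
  · refine ⟨I.erase none, ?_, ?_⟩
    · rw [Finset.card_erase_of_mem hn]
      have := Finset.card_pos.mpr ⟨_, hn⟩
      obtain ⟨k, hk⟩ := hev
      exact ⟨k, by omega⟩
    · rw [h]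
      refine Finset.sum_congr rfl fun j _ => ?_
      by_cases hj : j = none
      · rw [hj, h0, smul_zero, smul_zero]
      · simp [hj]
  · refine ⟨insert none I, ?_, ?_⟩
    · rw [Finset.card_insert_of_notMem hn]
      exact hev.add_one
    · rw [h]
      refine Finset.sum_congr rfl fun j _ => ?_
      by_cases hj : j = none
      · rw [hj, h0, smul_zero, smul_zero]
      · simp [hj]

section D

variable {B : LinearMap.BilinForm K M} {s : M →ₗ[K] K}

/-- In a simply laced system the roots of value two separate points. -/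
lemma zeroD (F : Fl L X Φ co) (h : TR.SL B s Φ X) (hco : ∀ a ∈ Φ, ∀ x, co a x = B x a) {m : M}
    (hm : ∀ b ∈ h.P, B m b = 0) : m = 0 := by
  apply F.zero_of
  intro a ha
  rw [hco a ha]
  rcases h.s_root ha with sa | sa | sa
  · obtain ⟨b, hb, c, hc, -, rfl⟩ := h.zero_root ha sa
    rw [map_sub, hm b hb, hm c hc, sub_zero]
  · exact hm a (h.mem_P.mpr ⟨ha, sa⟩)
  · have h1 := hm (-a) (h.mem_P.mpr ⟨h.neg a ha, by rw [map_neg, sa, neg_neg]⟩)
    rw [map_neg] at h1
    exact neg_eq_zero.mp h1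

/-- The weights in the half spin case. -/
lemma weightD [DecidableEq M] (F : Fl L X Φ co) (h : TR.SLB B s Φ X)
    (hco : ∀ a ∈ Φ, ∀ x, co a x = B x a)
    {x0 a0 : M} (hx0 : x0 ∈ h.Xp) (ha0 : a0 ∈ h.P) {x : M} (hx : x ∈ h.Xp) :
    x + x = (1 / 2 : K) • (a0 + h.pa a0) +
      ∑ a : {a // a ∈ h.R x0}, (if a.1 ∈ h.R x then (1 : K) else -1) •
        ((1 / 2 : K) • (a.1 - h.pa a.1)) := by
  have hx' := h.mem_Xp.mp hx
  have val : ∀ k ∈ h.P, B x k = if k ∈ h.R x then 1 else 0 := by
    intro k hk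
    split_ifs with h1
    · exact (h.mem_R' hk).mp h1
    · exact (h.xp hx'.1 hx'.2 (h.mem_P.mp hk).1 (h.mem_P.mp hk).2).resolve_right
        (fun h2 => h1 ((h.mem_R' hk).mpr h2))
  rw [← sub_eq_zero]
  apply zeroD F h.toSL hco
  intro b hb
  -- the pairing of the constant element
  have hb2 : B b b = 2 := h.two b (h.mem_P.mp hb).1
  have e0 : B ((1 / 2 : K) • (a0 + h.pa a0)) b = 1 := by
    obtain ⟨q1, q2, q3⟩ := h.pa_spec ha0
    rw [map_smul, LinearMap.smul_apply, map_add, LinearMap.add_apply, smul_eq_mul]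
    by_cases h1 : a0 = b
    · rw [h1] at q3 ⊢
      rw [hb2, h.symm, q3]; norm_num
    by_cases h2 : b = h.pa a0
    · rw [← h2] at q3 ⊢
      rw [hb2, q3]; norm_num
    · rw [h.adj ha0 hb h1 h2, h.adj q1 hb (Ne.symm h2) (by rw [h.pa_pa ha0]; exact Ne.symm h1)]
      norm_num
  -- the pairings of the other elements
  obtain ⟨p, hp, hpb, hp1⟩ := h.exists_rep hx0 hb
  have e1 : ∀ a : {a // a ∈ h.R x0}, a.1 ≠ p → B ((1 / 2 : K) • (a.1 - h.pa a.1)) b = 0 := by
    intro a ha
    have haP := h.R_sub x0 a.2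
    obtain ⟨q1, q2, q3⟩ := h.pa_spec haP
    have h1 : ¬ (a.1 = b ∨ a.1 = h.pa b) := fun h2 => ha ((hp1 a.1 a.2).mp h2)
    rw [not_or] at h1
    have h2 : b ≠ h.pa a.1 := by
      intro e
      apply h1.2
      rw [e, h.pa_pa haP]
    rw [map_smul, LinearMap.smul_apply, map_sub, LinearMap.sub_apply,
      h.adj haP hb h1.1 h2, h.adj q1 hb (Ne.symm h2) (by rw [h.pa_pa haP]; exact Ne.symm h1.1),
      sub_self, smul_zero]
  have e2 : B ((1 / 2 : K) • (p - h.pa p)) b = if p = b then 1 else -1 := by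
    have hpP := h.R_sub x0 hp
    obtain ⟨q1, q2, q3⟩ := h.pa_spec hpP
    rw [map_smul, LinearMap.smul_apply, map_sub, LinearMap.sub_apply, smul_eq_mul]
    by_cases h1 : p = b
    · rw [if_pos h1]
      rw [h1] at q3 ⊢
      rw [hb2, h.symm, q3]; norm_num
    · rw [if_neg h1]
      have h2 : p = h.pa b := hpb.resolve_left h1
      have h3 : h.pa p = b := by rw [h2, h.pa_pa hb]
      rw [h3] at q3 ⊢
      rw [q3, hb2]; norm_num
  have e3 : ∑ a : {a // a ∈ h.R x0}, (if a.1 ∈ h.R x then (1 : K) else -1) *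
      B ((1 / 2 : K) • (a.1 - h.pa a.1)) b =
      (if p ∈ h.R x then (1 : K) else -1) * (if p = b then 1 else -1) := by
    rw [Finset.sum_eq_single (⟨p, hp⟩ : {a // a ∈ h.R x0}), e2]
    · intro a _ ha
      rw [e1 a (fun h1 => ha (Subtype.ext h1)), mul_zero]
    · intro h1
      exact absurd (Finset.mem_univ _) h1
  have e4 : B (∑ a : {a // a ∈ h.R x0}, (if a.1 ∈ h.R x then (1 : K) else -1) •
      ((1 / 2 : K) • (a.1 - h.pa a.1))) b =
      (if p ∈ h.R x then (1 : K) else -1) * (if p = b then 1 else -1) := by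
    rw [← e3, map_sum, LinearMap.sum_apply]
    refine Finset.sum_congr rfl fun a _ => ?_
    rw [map_smul (B : M →ₗ[K] M →ₗ[K] K) (if a.1 ∈ h.R x then (1 : K) else -1),
      LinearMap.smul_apply, smul_eq_mul]
  rw [map_sub, map_add, map_add, LinearMap.sub_apply, LinearMap.add_apply, LinearMap.add_apply,
    e0, e4, val b hb]
  have h5 := h.one_of hx hb
  rcases hpb with h6 | h6
  · rw [h6, if_pos rfl]
    split_ifs <;> norm_num
  · have h7 : h.pa b ≠ b := (h.pa_spec hb).2.1
    rw [h6, if_neg h7]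
    by_cases h8 : b ∈ h.R x
    · rw [if_pos h8, if_neg (by rw [h5]; exact fun h9 => h9 h8)]
      norm_num
    · rw [if_neg h8, if_pos (by rw [h5]; exact h8)]
      norm_num

/-- **The half spin case.** -/
theorem spinD (F : Fl L X Φ co) {n : ℕ} (t : Fin n → Module.Dual K M)
    (ht : ∀ i, ∀ x ∈ X, t i x = 1 ∨ t i x = -1) (h : TR.SLB B s Φ X)
    (hco : ∀ a ∈ Φ, ∀ x, co a x = B x a) {x0 : M} (hx0 : x0 ∈ h.Xp)
    (h4 : (h.R x0).card % 4 = 1) (h5 : 5 ≤ (h.R x0).card) :
    ∃ b : Basis {I : Finset (Fin ((h.R x0).card + 1)) // Even I.card} K V, ∀ i,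
      ∃ j : Fin ((h.R x0).card + 1), ((h.R x0).card % 4 = 2 → j ≠ 0) ∧
      ((∀ I, F.tor (t i) (b I) = (if j ∈ I.1 then (-1 : K) else 1) • b I) ∨
        (∀ I, F.tor (t i) (b I) = (if j ∈ I.1 then (1 : K) else -1) • b I)) := by
  classical
  obtain ⟨a0, ha0⟩ : (h.R x0).Nonempty := by
    rw [← Finset.card_pos]; omega
  have ha0P := h.R_sub x0 ha0
  let ε : Option {a // a ∈ h.R x0} → M := fun j => match j with
    | none => (1 / 2 : K) • (a0 + h.pa a0)
    | some a => (1 / 2 : K) • (a.1 - h.pa a.1)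
  have key : ∀ x ∈ h.Xp, ∃ I : Finset (Option {a // a ∈ h.R x0}), Even I.card ∧
      x + x = ∑ j, (if j ∈ I then (-1 : K) else 1) • ε j := by
    intro x hx
    refine ⟨((h.R x0 \ h.R x).subtype (· ∈ h.R x0)).map Function.Embedding.some, ?_, ?_⟩
    · rw [Finset.card_map, Finset.card_subtype, Finset.filter_true_of_mem]
      · exact h.even_E hx0 hx
      · intro a ha
        exact (Finset.mem_sdiff.mp ha).1
    · rw [Fintype.sum_option, weightD F h hco hx0 ha0P hx]
      congr 1
      · rw [if_neg (by simp), one_smul]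
      · refine Finset.sum_congr rfl fun a _ => ?_
        congr 1
        have h6 : some a ∈ ((h.R x0 \ h.R x).subtype (· ∈ h.R x0)).map Function.Embedding.some ↔
            a.1 ∉ h.R x := by
          rw [show (some a : Option {a // a ∈ h.R x0}) = Function.Embedding.some a from rfl,
            Finset.mem_map', Finset.mem_subtype, Finset.mem_sdiff]
          exact ⟨fun h7 => h7.2, fun h7 => ⟨a.2, h7⟩⟩
        by_cases h7 : a.1 ∈ h.R x
        · rw [if_pos h7, if_neg (fun h8 => h6.mp h8 h7)]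
        · rw [if_neg h7, if_pos (h6.mpr h7)]
  have hodd : Odd (h.R x0).card := ⟨(h.R x0).card / 2, by omega⟩
  refine cube F t ht (J := {a // a ∈ h.R x0}) (by rw [Fintype.card_coe]) h5 ε ?_ ?_
    (fun h6 => by omega)
  · rw [h.card_X, h.cardB hx0 ⟨a0, ha0⟩, ← pow_succ']
    congr 1
    omega
  · intro x hx
    rcases h.sx x hx with h6 | h6
    · exact key x (h.mem_Xp.mpr ⟨hx, h6⟩)
    · obtain ⟨I, hI1, hI2⟩ := key (-x) (h.mem_Xp.mpr ⟨h.xneg x hx, by rw [map_neg, h6, neg_neg]⟩)
      refine ⟨Iᶜ, ?_, sum_compl ε I hI2⟩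
      rw [Finset.card_compl, Fintype.card_option, Fintype.card_coe]
      have h7 : Even ((h.R x0).card + 1) := hodd.add_one
      have h8 : I.card ≤ (h.R x0).card + 1 := by
        have := Finset.card_le_univ I
        rwa [Fintype.card_option, Fintype.card_coe] at this
      exact (Nat.even_sub h8).mpr ⟨fun _ => hI1, fun _ => h7⟩

end D

section Bt

variable [DecidableEq M] {B : LinearMap.BilinForm K M} {s : M →ₗ[K] K} {ΦL ΦS : Finset M} {u : M}

omit [CharZero K] in
/-- In a system with two lengths the roots of value two separate points. -/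
lemma zeroB (F : Fl L X Φ co) (H : TR.N1 B s ΦL ΦS X u) (hΦ : Φ = ΦL ∪ ΦS)
    (hco : ∀ a ∈ Φ, ∀ x, co a x = TR.co B x a) {m : M} (hmu : B m u = 0)
    (hm : ∀ b ∈ ΦL, s b = 2 → B m b = 0) : m = 0 := by
  apply F.zero_of
  intro a ha
  rw [hco a ha, TR.co]
  have h1 := H.h.hit m (fun a ha hsa => by
    rcases Finset.mem_union.mp ha with ha | ha
    · exact hm a ha hsa
    · rw [H.uniq a ha hsa, hmu]) a (by rw [← hΦ]; exact ha)
  rw [h1]; simp

/-- The weights in the spin case. -/
lemma weightB (F : Fl L X Φ co) (H : TR.N1 B s ΦL ΦS X u) (hΦ : Φ = ΦL ∪ ΦS)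
    (hco : ∀ a ∈ Φ, ∀ x, co a x = TR.co B x a)
    {x0 : M} (hx0 : x0 ∈ X) (hs0 : s x0 = 1) {x : M} (hx : x ∈ X) (hsx : s x = 1) :
    x + x = u + ∑ k : {k // k ∈ H.T x0}, (if k.1 ∈ H.T x then (1 : K) else -1) • (k.1 - u) := by
  have huu : B u u = 2 := H.h.two u H.mem
  rw [← sub_eq_zero]
  have e0 : ∀ b : M, B (∑ k : {k // k ∈ H.T x0}, (if k.1 ∈ H.T x then (1 : K) else -1) •
      (k.1 - u)) b = ∑ k : {k // k ∈ H.T x0}, (if k.1 ∈ H.T x then (1 : K) else -1) *
        (B k.1 b - B u b) := by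
    intro b
    rw [map_sum, LinearMap.sum_apply]
    refine Finset.sum_congr rfl fun k _ => ?_
    rw [map_smul (B : M →ₗ[K] M →ₗ[K] K) (if k.1 ∈ H.T x then (1 : K) else -1),
      LinearMap.smul_apply, smul_eq_mul, map_sub, LinearMap.sub_apply]
  apply zeroB F H hΦ hco
  · rw [map_sub, map_add, map_add, LinearMap.sub_apply, LinearMap.add_apply, LinearMap.add_apply,
      e0, H.xu hx hsx, huu, Finset.sum_eq_zero]
    · norm_num
    · intro k _
      obtain ⟨h1, h2, -⟩ := H.mem_T.mp k.2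
      rw [H.adj k.1 h1 h2, sub_self, mul_zero]
  · intro b hb hsb
    have hub : B u b = 2 := by rw [H.h.symm]; exact H.adj b hb hsb
    rw [map_sub, map_add, map_add, LinearMap.sub_apply, LinearMap.add_apply, LinearMap.add_apply,
      e0, hub]
    -- the values of the weight
    have hv : ∀ k ∈ ΦL, s k = 2 → B x k = if k ∈ H.T x then 2 else 0 := by
      intro k hk hsk
      split_ifs with h1
      · exact (H.mem_T.mp h1).2.2
      · exact (H.h.posL hx hk hsk hsx).resolve_right
          (fun h2 => h1 (H.mem_T.mpr ⟨hk, hsk, h2⟩))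
    have hk0 : ∀ k ∈ ΦL, s k = 2 → k ≠ b → k ≠ (2 : K) • u - b → B k b = 2 := by
      intro k hk hsk h1 h2
      rcases H.h.f1LL hk hb hsk hsb h1 with h3 | h3
      · exact absurd (H.eq_partner hb hk hsb hsk (by rw [H.h.symm]; exact h3)) h2
      · exact h3
    rcases H.mem_or hx0 hs0 hb hsb with h1 | h1
    · rw [Finset.sum_eq_single (⟨b, h1⟩ : {k // k ∈ H.T x0}), H.h.four b hb, hv b hb hsb]
      · by_cases h2 : b ∈ H.T x
        · rw [if_pos h2, if_pos h2]; norm_num
        · rw [if_neg h2, if_neg h2]; norm_num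
      · intro k _ hkb
        obtain ⟨h2, h3, -⟩ := H.mem_T.mp k.2
        rw [hk0 k.1 h2 h3 (fun h4 => hkb (Subtype.ext h4)), sub_self, mul_zero]
        intro h4
        apply H.not_partner hx0 hs0 h1
        rw [← h4]
        exact k.2
      · intro h2
        exact absurd (Finset.mem_univ _) h2
    · obtain ⟨p1, p2⟩ := H.partner hb hsb
      rw [Finset.sum_eq_single (⟨_, h1⟩ : {k // k ∈ H.T x0})]
      · have h3 : B ((2 : K) • u - b) b = 0 := by
          rw [map_sub, LinearMap.sub_apply, map_smul, LinearMap.smul_apply, hub, H.h.four b hb,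
            smul_eq_mul]
          norm_num
        have h4 := hv _ p1 p2
        rw [H.xpartner hx hsx] at h4
        simp only
        rw [h3]
        by_cases h2 : (2 : K) • u - b ∈ H.T x
        · rw [if_pos h2] at h4 ⊢
          linear_combination -2 * h4
        · rw [if_neg h2] at h4 ⊢
          linear_combination -2 * h4
      · intro k _ hkb
        obtain ⟨h2, h3, -⟩ := H.mem_T.mp k.2
        rw [hk0 k.1 h2 h3 ?_ (fun h4 => hkb (Subtype.ext h4)), sub_self, mul_zero]
        intro h4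
        apply H.not_partner hx0 hs0 h1
        have h5 : (2 : K) • u - ((2 : K) • u - b) = k.1 := by rw [h4]; abel
        rw [h5]
        exact k.2
      · intro h2
        exact absurd (Finset.mem_univ _) h2

/-- **The spin case.** -/
theorem spinB (F : Fl L X Φ co) {n : ℕ} (t : Fin n → Module.Dual K M)
    (ht : ∀ i, ∀ x ∈ X, t i x = 1 ∨ t i x = -1) (H : TR.N1 B s ΦL ΦS X u) (hΦ : Φ = ΦL ∪ ΦS)
    (hco : ∀ a ∈ Φ, ∀ x, co a x = TR.co B x a)
    {x0 : M} (hx0 : x0 ∈ X) (hs0 : s x0 = 1) (h5 : 5 ≤ (H.T x0).card + 1) :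
    ∃ b : Basis {I : Finset (Fin ((H.T x0).card + 1 + 1)) // Even I.card} K V, ∀ i,
      ∃ j : Fin ((H.T x0).card + 1 + 1), (((H.T x0).card + 1) % 4 = 2 → j ≠ 0) ∧
      ((∀ I, F.tor (t i) (b I) = (if j ∈ I.1 then (-1 : K) else 1) • b I) ∨
        (∀ I, F.tor (t i) (b I) = (if j ∈ I.1 then (1 : K) else -1) • b I)) := by
  classical
  let ε : Option (Option {k // k ∈ H.T x0}) → M := fun j => match j with
    | none => 0
    | some none => u
    | some (some k) => k.1 - u
  have key : ∀ x ∈ X, s x = 1 → ∃ I : Finset (Option (Option {k // k ∈ H.T x0})),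
      x + x = ∑ j, (if j ∈ I then (-1 : K) else 1) • ε j := by
    intro x hx hsx
    refine ⟨(((H.T x0 \ H.T x).subtype (· ∈ H.T x0)).map Function.Embedding.some).map
      Function.Embedding.some, ?_⟩
    rw [Fintype.sum_option, Fintype.sum_option, weightB F H hΦ hco hx0 hs0 hx hsx]
    have e1 : ε none = 0 := rfl
    have e2 : ε (some none) = u := rfl
    rw [e1, smul_zero, zero_add, e2]
    congr 1
    · rw [if_neg (by simp), one_smul]
    · refine Finset.sum_congr rfl fun k _ => ?_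
      congr 1
      have h6 : some (some k) ∈ (((H.T x0 \ H.T x).subtype (· ∈ H.T x0)).map
          Function.Embedding.some).map Function.Embedding.some ↔ k.1 ∉ H.T x := by
        rw [show (some (some k) : Option (Option {k // k ∈ H.T x0})) =
          Function.Embedding.some (Function.Embedding.some k) from rfl,
          Finset.mem_map', Finset.mem_map', Finset.mem_subtype, Finset.mem_sdiff]
        exact ⟨fun h7 => h7.2, fun h7 => ⟨k.2, h7⟩⟩
      by_cases h7 : k.1 ∈ H.T x
      · rw [if_pos h7, if_neg (fun h8 => h6.mp h8 h7)]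
      · rw [if_neg h7, if_pos (h6.mpr h7)]
  refine cube F t ht (J := Option {k // k ∈ H.T x0})
    (by rw [Fintype.card_option, Fintype.card_coe]) h5 ε (H.card_X hx0 hs0) ?_ (fun _ => rfl)
  intro x hx
  rcases H.h.sx x hx with h6 | h6
  · obtain ⟨I, hI⟩ := key x hx h6
    exact sum_parity ε rfl I hI
  · obtain ⟨I, hI⟩ := key (-x) (H.h.xneg x hx) (by rw [map_neg, h6, neg_neg])
    exact sum_parity ε rfl _ (sum_compl ε I hI)

end Bt

end PR
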