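import Pool.Agent.Helper27.PR.WD
import Pool.Agent.Helper43.PR.Spin

/-!
Involutions of the Cartan subalgebra in the case of the middle exterior power.
-/

open Module

namespace PR.W43

/-- A function on a set of `2 m` elements whose sums over the subsets of order `m` are `1` or
`-1`. -/
lemma signsA {K : Type*} [Field K] [CharZero K] {J : Type*} [Fintype J] [DecidableEq J] {m : ℕ}
    (hm : 2 ≤ m) (hJ : Fintype.card J = 2 * m) (f : J → K) (h0 : ∑ j, f j = 0)
    (hf : ∀ I : Finset J, I.card = m → ∑ j ∈ I, f j = 1 ∨ ∑ j ∈ I, f j = -1) :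
    ∃ a, (∀ I : Finset J, I.card = m → ∑ j ∈ I, f j = if a ∈ I then -1 else 1) ∨
      (∀ I : Finset J, I.card = m → ∑ j ∈ I, f j = if a ∈ I then 1 else -1) := by
  have hmK : (m : K) ≠ 0 := by exact_mod_cast (by omega : m ≠ 0)
  -- sets which contain one set and avoid another one
  have hex : ∀ A B : Finset J, Disjoint A B → A.card ≤ 2 → B.card ≤ 2 →
      ∃ I : Finset J, I.card = m ∧ A ⊆ I ∧ Disjoint I B := by
    intro A B hAB hA hB
    have h1 : A ⊆ Bᶜ := by
      intro a ha
      rw [Finset.mem_compl]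
      exact Finset.disjoint_left.mp hAB ha
    have h2 : m ≤ (Bᶜ).card := by
      rw [Finset.card_compl, hJ]; omega
    obtain ⟨I, hI1, hI2, hI3⟩ := Finset.exists_subsuperset_card_eq h1 (by omega : A.card ≤ m) h2
    refine ⟨I, hI3, hI1, ?_⟩
    rw [Finset.disjoint_left]
    intro a ha hb
    exact (Finset.mem_compl.mp (hI2 ha)) hb
  -- exchanging one element
  have hswap : ∀ (I : Finset J) (i j : J), i ∈ I → j ∉ I → I.card = m →
      (insert j (I.erase i)).card = m ∧
        ∑ k ∈ insert j (I.erase i), f k = ∑ k ∈ I, f k - f i + f j := by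
    intro I i j hi hj hI
    have h1 : j ∉ I.erase i := fun h => hj (Finset.mem_of_mem_erase h)
    refine ⟨?_, ?_⟩
    · rw [Finset.card_insert_of_notMem h1, Finset.card_erase_of_mem hi, hI]
      omega
    · rw [Finset.sum_insert h1, ← Finset.add_sum_erase I f hi]
      ring
  have hdiff : ∀ i j, i ≠ j → f i - f j = 0 ∨ f i - f j = 2 ∨ f i - f j = -2 := by
    intro i j hij
    obtain ⟨I, hI, hiI, hjI⟩ := hex {i} {j} (by
      rw [Finset.disjoint_singleton]; exact hij) (by simp) (by simp)
    have hi : i ∈ I := hiI (Finset.mem_singleton_self i)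
    have hj : j ∉ I := fun h => (Finset.disjoint_left.mp hjI h) (Finset.mem_singleton_self j)
    obtain ⟨h1, h2⟩ := hswap I i j hi hj hI
    have h3 := hf I hI
    have h4 := hf _ h1
    rw [h2] at h4
    rcases h3 with h3 | h3 <;> rcases h4 with h4 | h4 <;> rw [h3] at h4
    · left; linear_combination -h4
    · right; left; linear_combination -h4
    · right; right; linear_combination -h4
    · left; linear_combination -h4
  -- the function is not constant
  obtain ⟨p, q, hpq, hpq2⟩ : ∃ p q, p ≠ q ∧ f p - f q = 2 := by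
    by_contra! hcon
    have hall : ∀ i j, f i = f j := by
      intro i j
      by_cases hij : i = j
      · rw [hij]
      rcases hdiff i j hij with h1 | h1 | h1
      · exact sub_eq_zero.mp h1
      · exact absurd h1 (hcon i j hij)
      · exact absurd (by linear_combination -h1) (hcon j i (Ne.symm hij))
    obtain ⟨I, hI, -, -⟩ := hex ∅ ∅ (by simp) (by simp) (by simp)
    obtain ⟨i, hi⟩ : I.Nonempty := by
      rw [← Finset.card_pos]; omega
    have h1 : ∑ j, f j = (2 * m : ℕ) * f i := by
      rw [Finset.sum_congr rfl (fun j _ => hall j i), Finset.sum_const, Finset.card_univ, hJ,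
        nsmul_eq_mul]
    rw [h0] at h1
    have h2 : f i = 0 := by
      have h3 : ((2 * m : ℕ) : K) ≠ 0 := by exact_mod_cast (by omega : 2 * m ≠ 0)
      exact (mul_eq_zero.mp h1.symm).resolve_left h3
    have h3 : ∑ j ∈ I, f j = 0 := Finset.sum_eq_zero fun j _ => by rw [hall j i, h2]
    have h4 := hf I hI
    rw [h3] at h4
    rcases h4 with h4 | h4 <;> norm_num at h4
  have hval : ∀ k, f k = f p ∨ f k = f q := by
    intro k
    by_cases hkp : k = p
    · left; rw [hkp]
    by_cases hkq : k = q
    · right; rw [hkq]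
    rcases hdiff k p hkp with h1 | h1 | h1
    · left; exact sub_eq_zero.mp h1
    · exfalso
      rcases hdiff k q hkq with h2 | h2 | h2
      · have : (4 : K) = 0 := by linear_combination h2 - h1 - hpq2
        norm_num at this
      · have : (2 : K) = 0 := by linear_combination h2 - h1 - hpq2
        norm_num at this
      · have : (6 : K) = 0 := by linear_combination h2 - h1 - hpq2
        norm_num at this
    · right
      linear_combination h1 + hpq2
  have hpq3 : f p ≠ f q := by
    intro h1
    rw [h1, sub_self] at hpq2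
    norm_num at hpq2
  -- one of the two values is taken only once
  have hone : (∀ k, k ≠ p → f k = f q) ∨ (∀ k, k ≠ q → f k = f p) := by
    by_contra hcon
    rw [not_or] at hcon
    obtain ⟨hc1, hc2⟩ := hcon
    push Not at hc1 hc2
    obtain ⟨a, hap, ha⟩ := hc1
    obtain ⟨b, hbq, hb⟩ := hc2
    have ha' : f a = f p := (hval a).resolve_right ha
    have hb' : f b = f q := (hval b).resolve_left hb
    have hab : a ≠ b := by rintro rfl; exact hb ha'
    have haq : a ≠ q := by rintro rfl; exact ha rfl
    have hbp : b ≠ p := by rintro rfl; exact hb rfl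
    obtain ⟨I, hI, h1, h2⟩ := hex {p, a} {q, b} (by
      rw [Finset.disjoint_left]
      intro c hc hc'
      rw [Finset.mem_insert, Finset.mem_singleton] at hc hc'
      rcases hc with rfl | rfl <;> rcases hc' with hc' | hc'
      · exact hpq hc'
      · exact hbp hc'.symm
      · exact haq hc'
      · exact hab hc') (Finset.card_le_two) (Finset.card_le_two)
    have hpI : p ∈ I := h1 (by simp)
    have haI : a ∈ I := h1 (by simp)
    have hqI : q ∉ I := fun h => (Finset.disjoint_left.mp h2 h) (by simp)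
    have hbI : b ∉ I := fun h => (Finset.disjoint_left.mp h2 h) (by simp)
    obtain ⟨e1, e2⟩ := hswap I p q hpI hqI hI
    obtain ⟨e3, e4⟩ := hswap (insert q (I.erase p)) a b
      (Finset.mem_insert_of_mem (Finset.mem_erase.mpr ⟨hap, haI⟩))
      (by
        rw [Finset.mem_insert, Finset.mem_erase]
        rintro (h3 | h3)
        · exact hbq h3
        · exact hbI h3.2) e1
    have h3 := hf I hI
    have h4 := hf _ e3
    rw [e4, e2, ha', hb'] at h4
    rcases h3 with h3 | h3 <;> rcases h4 with h4 | h4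
    · have : (4 : K) = 0 := by linear_combination h3 - h4 - 2 * hpq2
      norm_num at this
    · have : (2 : K) = 0 := by linear_combination h3 - h4 - 2 * hpq2
      norm_num at this
    · have : (6 : K) = 0 := by linear_combination h3 - h4 - 2 * hpq2
      norm_num at this
    · have : (4 : K) = 0 := by linear_combination h3 - h4 - 2 * hpq2
      norm_num at this
  -- sums in terms of the exceptional element
  have hsum : ∀ (a : J) (c : K), (∀ k, k ≠ a → f k = c) → ∀ I : Finset J, I.card = m →
      ∑ j ∈ I, f j = m * c + if a ∈ I then f a - c else 0 := by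
    intro a c hc I hI
    by_cases ha : a ∈ I
    · rw [if_pos ha, ← Finset.add_sum_erase I f ha,
        Finset.sum_congr rfl (fun j hj => hc j (Finset.ne_of_mem_erase hj)), Finset.sum_const,
        Finset.card_erase_of_mem ha, hI, nsmul_eq_mul, Nat.cast_sub (by omega : 1 ≤ m)]
      push_cast; ring
    · rw [if_neg ha, Finset.sum_congr rfl (fun j hj => hc j (by rintro rfl; exact ha hj)),
        Finset.sum_const, hI, nsmul_eq_mul, add_zero]
  have hboth : ∀ a : J, (∃ I : Finset J, I.card = m ∧ a ∈ I) ∧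
      (∃ I : Finset J, I.card = m ∧ a ∉ I) := by
    intro a
    obtain ⟨I, hI, h1, -⟩ := hex {a} ∅ (by simp) (by simp) (by simp)
    obtain ⟨I', hI', -, h2⟩ := hex ∅ {a} (by simp) (by simp) (by simp)
    exact ⟨⟨I, hI, h1 (Finset.mem_singleton_self a)⟩, ⟨I', hI', fun h =>
      (Finset.disjoint_left.mp h2 h) (Finset.mem_singleton_self a)⟩⟩
  rcases hone with h1 | h1
  · refine ⟨p, Or.inr ?_⟩
    obtain ⟨⟨I1, hI1, hp1⟩, ⟨I2, hI2, hp2⟩⟩ := hboth p
    have e1 := hsum p (f q) h1 I1 hI1
    have e2 := hsum p (f q) h1 I2 hI2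
    rw [if_pos hp1, hpq2] at e1
    rw [if_neg hp2, add_zero] at e2
    have h2 : (m : K) * f q = -1 := by
      have h3 := hf I1 hI1
      have h4 := hf I2 hI2
      rw [e1] at h3
      rw [e2] at h4
      rcases h4 with h4 | h4
      · exfalso
        rw [h4] at h3
        rcases h3 with h3 | h3 <;> norm_num at h3
      · exact h4
    intro I hI
    rw [hsum p (f q) h1 I hI, h2, hpq2]
    split_ifs <;> norm_num
  · refine ⟨q, Or.inl ?_⟩
    obtain ⟨⟨I1, hI1, hp1⟩, ⟨I2, hI2, hp2⟩⟩ := hboth q
    have hqp : f q - f p = -2 := by linear_combination -hpq2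
    have e1 := hsum q (f p) h1 I1 hI1
    have e2 := hsum q (f p) h1 I2 hI2
    rw [if_pos hp1, hqp] at e1
    rw [if_neg hp2, add_zero] at e2
    have h2 : (m : K) * f p = 1 := by
      have h3 := hf I1 hI1
      have h4 := hf I2 hI2
      rw [e1] at h3
      rw [e2] at h4
      rcases h4 with h4 | h4
      · exact h4
      · exfalso
        rw [h4] at h3
        rcases h3 with h3 | h3 <;> norm_num at h3
    intro I hI
    rw [hsum q (f p) h1 I hI, h2, hqp]
    split_ifs <;> norm_num

section W

variable {K : Type*} [Field K] [CharZero K] {V : Type*} [AddCommGroup V] [Module K V]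
  {M : Type*} [AddCommGroup M] [Module K M] {L : Submodule K (Module.End K V)}
  {X Φ : Finset M} {co : M → Module.Dual K M} {B : LinearMap.BilinForm K M} {s : M →ₗ[K] K}

/-- The points attached to the indices. -/
def rho (P : Finset M) : Option {a // a ∈ P} → M
  | none => 0
  | some a => a.1

/-- The coroots attached to the indices. -/
def cr (co : M → Module.Dual K M) (P : Finset M) : Option {a // a ∈ P} → Module.Dual K M
  | none => 0
  | some a => co a.1

open Classical in
/-- The subset of a positive weight. -/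
noncomputable def E0 (h : TR.SL B s Φ X) (x : M) : Finset (Option {a // a ∈ h.P}) :=
  ((h.R x).subtype (· ∈ h.P)).map Function.Embedding.some

open Classical in
/-- The subset of a weight. -/
noncomputable def EE (h : TR.SL B s Φ X) (x : M) : Finset (Option {a // a ∈ h.P}) :=
  if s x = 1 then E0 h x else (E0 h (-x))ᶜ

omit [CharZero K] in
lemma none_E0 (h : TR.SL B s Φ X) (x : M) : none ∉ E0 h x := by
  simp [E0]

omit [CharZero K] in
lemma some_E0 (h : TR.SL B s Φ X) (x : M) (a : {a // a ∈ h.P}) :
    some a ∈ E0 h x ↔ a.1 ∈ h.R x := by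
  classical
  rw [E0, show (some a : Option {a // a ∈ h.P}) = Function.Embedding.some a from rfl,
    Finset.mem_map', Finset.mem_subtype]

lemma card_E0 (h : TR.SL B s Φ X) (x : M) : (E0 h x).card = (h.R x).card := by
  classical
  rw [E0, Finset.card_map, Finset.card_subtype, Finset.filter_true_of_mem]
  intro a ha
  exact h.R_sub x ha

/-- The weights in terms of the roots of value two. -/
lemma weightA (F : Fl L X Φ co) (h : TR.SL B s Φ X) (hco : ∀ a ∈ Φ, ∀ x, co a x = B x a)
    (hadj : ∀ a ∈ h.P, ∀ b ∈ h.P, a ≠ b → B a b = 1) {x0 : M} (hx0 : x0 ∈ h.Xp)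
    (hP : h.P.card + 1 = 2 * (h.R x0).card) {x : M} (hx : x ∈ h.Xp) :
    x = ∑ a ∈ h.R x, a - (1 / 2 : K) • ∑ a ∈ h.P, a := by
  classical
  have hx' := h.mem_Xp.mp hx
  have hx0' := h.mem_Xp.mp hx0
  have hcard : (h.R x).card = (h.R x0).card := h.card_R hx'.1 hx0'.1 hx'.2 hx0'.2
  rw [← sub_eq_zero]
  apply zeroD F h hco
  intro b hb
  have hb2 : B b b = 2 := h.two b (h.mem_P.mp hb).1
  have hs : ∀ T : Finset M, T ⊆ h.P → B (∑ a ∈ T, a) b = T.card + if b ∈ T then 1 else 0 := by
    intro T hT
    rw [map_sum, LinearMap.sum_apply]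
    by_cases hbT : b ∈ T
    · rw [if_pos hbT, ← Finset.add_sum_erase T _ hbT, hb2, Finset.sum_congr rfl (fun a ha =>
        hadj a (hT (Finset.mem_of_mem_erase ha)) b hb (Finset.ne_of_mem_erase ha)),
        Finset.sum_const, Finset.card_erase_of_mem hbT, nsmul_eq_mul,
        Nat.cast_sub (Finset.card_pos.mpr ⟨b, hbT⟩)]
      push_cast; ring
    · rw [if_neg hbT, Finset.sum_congr rfl (fun a ha =>
        hadj a (hT ha) b hb (by rintro rfl; exact hbT ha)), Finset.sum_const, nsmul_eq_mul]
      ring
  rw [map_sub, map_sub, LinearMap.sub_apply, LinearMap.sub_apply, map_smul, LinearMap.smul_apply,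
    hs _ (h.R_sub x), hs _ subset_rfl, if_pos hb, smul_eq_mul, hcard]
  have h1 : (h.P.card : K) + 1 = 2 * (h.R x0).card := by exact_mod_cast hP
  have h2 : B x b = if b ∈ h.R x then 1 else 0 := by
    split_ifs with h3
    · exact (h.mem_R' hb).mp h3
    · exact (h.xp hx'.1 hx'.2 (h.mem_P.mp hb).1 (h.mem_P.mp hb).2).resolve_right
        (fun h4 => h3 ((h.mem_R' hb).mpr h4))
  rw [h2]
  linear_combination (1 / 2 : K) * h1

lemma sum_E0 (h : TR.SL B s Φ X) (x : M) :
    ∑ i ∈ E0 h x, rho h.P i = ∑ a ∈ h.R x, a := by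
  classical
  rw [E0, Finset.sum_map]
  change ∑ a ∈ (h.R x).subtype (· ∈ h.P), (a : M) = _
  rw [Finset.sum_subtype_eq_sum_filter (s := h.R x) (f := fun a => a) (p := (· ∈ h.P)),
    Finset.filter_true_of_mem]
  intro a ha
  exact h.R_sub x ha

lemma sum_rho (P : Finset M) : ∑ i, rho P i = ∑ a ∈ P, a := by
  rw [Fintype.sum_option]
  change 0 + ∑ a : {a // a ∈ P}, a.1 = _
  rw [zero_add, Finset.sum_coe_sort P (fun a => a)]

/-- All weights. -/
lemma weightE (F : Fl L X Φ co) (h : TR.SL B s Φ X) (hco : ∀ a ∈ Φ, ∀ x, co a x = B x a)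
    (hadj : ∀ a ∈ h.P, ∀ b ∈ h.P, a ≠ b → B a b = 1) {x0 : M} (hx0 : x0 ∈ h.Xp)
    (hP : h.P.card + 1 = 2 * (h.R x0).card) {x : M} (hx : x ∈ X) :
    x = ∑ i ∈ EE h x, rho h.P i - (1 / 2 : K) • ∑ i, rho h.P i := by
  classical
  rw [EE]
  split_ifs with h1
  · rw [sum_E0, sum_rho]
    exact weightA F h hco hadj hx0 hP (h.mem_Xp.mpr ⟨hx, h1⟩)
  · have h2 : s (-x) = 1 := by
      rw [map_neg, (h.sx x hx).resolve_left h1, neg_neg]
    have h3 := weightA F h hco hadj hx0 hP (h.mem_Xp.mpr ⟨h.xneg x hx, h2⟩)
    have h4 := Finset.sum_add_sum_compl (E0 h (-x)) (rho h.P)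
    rw [sum_E0, sum_rho] at h4
    rw [sum_rho]
    have h5 : ∑ i ∈ (E0 h (-x))ᶜ, rho h.P i = ∑ a ∈ h.P, a - ∑ a ∈ h.R (-x), a := by
      rw [← h4]; abel
    rw [h5]
    have h6 : x = -(∑ a ∈ h.R (-x), a - (1 / 2 : K) • ∑ a ∈ h.P, a) := by
      rw [← h3, neg_neg]
    conv_lhs => rw [h6]
    module

lemma card_EE (h : TR.SL B s Φ X) {x0 : M} (hx0 : x0 ∈ h.Xp)
    (hP : h.P.card + 1 = 2 * (h.R x0).card) {x : M} (hx : x ∈ X) :
    (EE h x).card = (h.R x0).card := by
  classical
  have hx0' := h.mem_Xp.mp hx0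
  rw [EE]
  split_ifs with h1
  · rw [card_E0]
    exact h.card_R hx hx0'.1 h1 hx0'.2
  · have h2 : s (-x) = 1 := by
      rw [map_neg, (h.sx x hx).resolve_left h1, neg_neg]
    have h3 : (h.R (-x)).card = (h.R x0).card := h.card_R (h.xneg x hx) hx0'.1 h2 hx0'.2
    rw [Finset.card_compl, card_E0, Fintype.card_option, Fintype.card_coe, h3]
    omega

open Classical in
/-- The values of the involutions on the weights. -/
lemma val_EE (h : TR.SL B s Φ X) (hco : ∀ a ∈ Φ, ∀ x, co a x = B x a) {x : M} (hx : x ∈ X)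
    (l : Option {a // a ∈ h.P}) :
    s x - 2 * cr co h.P l x = if l ∈ EE h x then -1 else 1 := by
  have key : ∀ y ∈ X, s y = 1 → ∀ l, s y - 2 * cr co h.P l y = if l ∈ E0 h y then -1 else 1 := by
    intro y hy hsy l
    cases l with
    | none =>
      rw [if_neg (none_E0 h y), hsy]
      change (1 : K) - 2 * (0 : Module.Dual K M) y = 1
      rw [LinearMap.zero_apply]; ring
    | some a =>
      have ha := h.mem_P.mp a.2
      have h1 : cr co h.P (some a) y = B y a.1 := hco a.1 ha.1 y
      rw [h1, hsy]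
      by_cases h2 : a.1 ∈ h.R y
      · rw [if_pos ((some_E0 h y a).mpr h2), (h.mem_R' a.2).mp h2]; norm_num
      · rw [if_neg (fun h3 => h2 ((some_E0 h y a).mp h3)),
          (h.xp hy hsy ha.1 ha.2).resolve_right (fun h4 => h2 ((h.mem_R' a.2).mpr h4))]
        norm_num
  by_cases h1 : s x = 1
  · have h2 : EE h x = E0 h x := by rw [EE, if_pos h1]
    rw [h2]
    exact key x hx h1 l
  · have h2 : EE h x = (E0 h (-x))ᶜ := by rw [EE, if_neg h1]
    have h3 : s (-x) = 1 := by
      rw [map_neg, (h.sx x hx).resolve_left h1, neg_neg]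
    have h4 := key (-x) (h.xneg x hx) h3 l
    rw [h2]
    by_cases h5 : l ∈ E0 h (-x)
    · rw [if_pos h5, map_neg, map_neg] at h4
      rw [if_neg (by simpa using h5)]
      linear_combination -h4
    · rw [if_neg h5, map_neg, map_neg] at h4
      rw [if_pos (by simpa using h5)]
      linear_combination -h4

/-- The differences of the points are roots. -/
lemma rho_sub (h : TR.SL B s Φ X) (hadj : ∀ a ∈ h.P, ∀ b ∈ h.P, a ≠ b → B a b = 1)
    (i j : Option {a // a ∈ h.P}) (hij : i ≠ j) : rho h.P i - rho h.P j ∈ Φ := by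
  cases i with
  | none =>
    cases j with
    | none => exact absurd rfl hij
    | some b =>
      change (0 : M) - b.1 ∈ Φ
      rw [zero_sub]
      exact h.neg _ (h.mem_P.mp b.2).1
  | some a =>
    cases j with
    | none =>
      change a.1 - 0 ∈ Φ
      rw [sub_zero]
      exact (h.mem_P.mp a.2).1
    | some b =>
      refine h.sub a.1 (h.mem_P.mp a.2).1 b.1 (h.mem_P.mp b.2).1 ?_
      exact hadj _ a.2 _ b.2 (fun e => hij (by rw [Subtype.ext e]))

/-- All roots are differences of the points. -/
lemma exists_rho (h : TR.SL B s Φ X) {γ : M} (hγ : γ ∈ Φ) :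
    ∃ i j : Option {a // a ∈ h.P}, i ≠ j ∧ γ = rho h.P i - rho h.P j := by
  rcases h.s_root hγ with hs | hs | hs
  · obtain ⟨a, ha, b, hb, hab, rfl⟩ := h.zero_root hγ hs
    refine ⟨some ⟨a, ha⟩, some ⟨b, hb⟩, ?_, rfl⟩
    intro e
    have e1 : a = b := congrArg Subtype.val (Option.some.inj e)
    rw [e1, h.two b (h.mem_P.mp hb).1] at hab
    norm_num at hab
  · exact ⟨some ⟨γ, h.mem_P.mpr ⟨hγ, hs⟩⟩, none, by simp, (sub_zero _).symm⟩
  · refine ⟨none, some ⟨-γ, h.mem_P.mpr ⟨h.neg γ hγ, by rw [map_neg, hs, neg_neg]⟩⟩, by simp, ?_⟩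
    change γ = 0 - -γ
    rw [zero_sub, neg_neg]

open Classical in
/-- The values of the involutions on the points. -/
lemma val_rho (h : TR.SL B s Φ X) (hco : ∀ a ∈ Φ, ∀ x, co a x = B x a)
    (hadj : ∀ a ∈ h.P, ∀ b ∈ h.P, a ≠ b → B a b = 1) (l i : Option {a // a ∈ h.P}) :
    s (rho h.P i) - 2 * cr co h.P l (rho h.P i) =
      (if l = none then 2 else 0) - (if l = i then 2 else 0) := by
  cases l with
  | none =>
    change s (rho h.P i) - 2 * (0 : Module.Dual K M) (rho h.P i) = _
    rw [LinearMap.zero_apply, if_pos rfl]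
    cases i with
    | none =>
      change s (0 : M) - 2 * 0 = _
      rw [map_zero, if_pos rfl]; norm_num
    | some a =>
      change s a.1 - 2 * 0 = _
      rw [(h.mem_P.mp a.2).2, if_neg (by simp)]; norm_num
  | some b =>
    have h1 : cr co h.P (some b) (rho h.P i) = B (rho h.P i) b.1 :=
      hco b.1 (h.mem_P.mp b.2).1 _
    rw [h1, if_neg (by simp)]
    cases i with
    | none =>
      change s (0 : M) - 2 * B (0 : M) b.1 = _
      rw [map_zero, map_zero, LinearMap.zero_apply, if_neg (by simp)]; norm_num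
    | some a =>
      change s a.1 - 2 * B a.1 b.1 = _
      rw [(h.mem_P.mp a.2).2]
      by_cases hab : a = b
      · rw [hab, h.two b.1 (h.mem_P.mp b.2).1, if_pos rfl]; norm_num
      · rw [hadj a.1 a.2 b.1 b.2 (fun e => hab (Subtype.ext e)),
          if_neg (fun e => hab (Option.some.inj e).symm)]
        norm_num

/-- **The case of the middle exterior power.** -/
theorem wedge_case (F : Fl L X Φ co) {n : ℕ} (hn : 0 < n)
    (t : Fin n → Module.Dual K M) (ht : ∀ i, ∀ x ∈ X, t i x = 1 ∨ t i x = -1)
    {B : LinearMap.BilinForm K M} (h : TR.SL B (t ⟨0, hn⟩) Φ X)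
    (hco : ∀ a ∈ Φ, ∀ x, co a x = B x a)
    (hadj : ∀ a ∈ h.P, ∀ b ∈ h.P, a ≠ b → B a b = 1) {x0 : M} (hx0 : x0 ∈ h.Xp)
    (hP : h.P.card + 1 = 2 * (h.R x0).card) (hodd : Odd (h.R x0).card)
    (h3 : 3 ≤ (h.R x0).card) :
    ∃ m, ∃ D : WD L m, ∀ i, ∃ j, F.tor (t i) = D.t j ∨ F.tor (t i) = - D.t j := by
  classical
  obtain ⟨m, hm⟩ : ∃ m, m = (h.R x0).card := ⟨_, rfl⟩
  have hJ : Fintype.card (Option {a // a ∈ h.P}) = 2 * m := by
    rw [Fintype.card_option, Fintype.card_coe, hP, hm]
  let e : Option {a // a ∈ h.P} ≃ Fin (2 * m) := Fintype.equivFinOfCardEq hJ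
  let tt : Option {a // a ∈ h.P} → Module.Dual K M := fun l => t ⟨0, hn⟩ - (2 : K) • cr co h.P l
  have htt : ∀ l x, tt l x = t ⟨0, hn⟩ x - 2 * cr co h.P l x := by
    intro l x
    rw [LinearMap.sub_apply, LinearMap.smul_apply, smul_eq_mul]
  -- the weights correspond to the subsets of order `m`
  let g : X → {I : Finset (Fin (2 * m)) // I.card = m} := fun x =>
    ⟨(EE h x.1).map e.toEmbedding, by rw [Finset.card_map, card_EE h hx0 hP x.2, hm]⟩
  have hg : Function.Injective g := by
    intro x y hxy
    have h1 : EE h x.1 = EE h y.1 := Finset.map_injective _ (congrArg Subtype.val hxy)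
    apply Subtype.ext
    rw [weightE F h hco hadj hx0 hP x.2, weightE F h hco hadj hx0 hP y.2, h1]
  have hcard : Fintype.card X = Fintype.card {I : Finset (Fin (2 * m)) // I.card = m} := by
    rw [Fintype.card_coe, Fintype.card_finset_len, Fintype.card_fin, h.card_X,
      h.cardA hadj hx0, ← hm]
    obtain ⟨k, hk⟩ : ∃ k, m = k + 1 := ⟨m - 1, by omega⟩
    have hP2 : h.P.card = 2 * k + 1 := by omega
    rw [hP2, hk]
    have e1 : 2 * (k + 1) = (2 * k + 1) + 1 := by ring
    have e3 : (2 * k + 1 + 1).choose (k + 1) = (2 * k + 1).choose k + (2 * k + 1).choose (k + 1) :=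
      Nat.choose_succ_succ' _ _
    have e2 : (2 * k + 1).choose (k + 1) = (2 * k + 1).choose k := Nat.choose_symm_half k
    rw [e1, e3, e2]
    ring
  have hbij : Function.Bijective g := (Fintype.bijective_iff_injective_and_card g).mpr ⟨hg, hcard⟩
  let ψ : X ≃ {I : Finset (Fin (2 * m)) // I.card = m} := Equiv.ofBijective g hbij
  have hψ : ∀ I, (I.1 : Finset (Fin (2 * m))) = (EE h (ψ.symm I).1).map e.toEmbedding := by
    intro I
    have h1 : ψ (ψ.symm I) = I := ψ.apply_symm_apply I
    exact (congrArg Subtype.val h1).symm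
  have hval : ∀ l (x : X), tt l x.1 = if l ∈ EE h x.1 then -1 else 1 := by
    intro l x
    rw [htt]
    exact val_EE h hco x.2 l
  have htr : ∀ l i, tt l (rho h.P i) = (if l = none then 2 else 0) - (if l = i then 2 else 0) := by
    intro l i
    rw [htt]
    exact val_rho h hco hadj l i
  -- the span
  have hspan : ∀ c : Module.Dual K M, F.tor c ∈
      Submodule.span K (Set.range (fun j : Fin (2 * m) => F.tor (tt (e.symm j)))) := by
    intro c
    have htt' : ∀ l, F.tor (tt l) ∈
        Submodule.span K (Set.range (fun j : Fin (2 * m) => F.tor (tt (e.symm j)))) := by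
      intro l
      refine Submodule.subset_span ⟨e l, ?_⟩
      simp only [e.symm_apply_apply]
    have hcr : ∀ l, F.tor (cr co h.P l) ∈
        Submodule.span K (Set.range (fun j : Fin (2 * m) => F.tor (tt (e.symm j)))) := by
      intro l
      have h1 : F.tor (cr co h.P l) = (1 / 2 : K) • (F.tor (tt none) - F.tor (tt l)) := by
        rw [← map_sub, ← map_smul]
        congr 1
        have h2 : cr co h.P none = 0 := rfl
        simp only [tt, h2]
        module
      rw [h1]
      exact Submodule.smul_mem _ _ (sub_mem (htt' none) (htt' l))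
    have hc := F.span_co c
    induction hc using Submodule.span_induction with
    | mem c hc =>
      obtain ⟨γ, hγ, rfl⟩ := hc
      obtain ⟨i, j, hij, hγ2⟩ := exists_rho h hγ
      have h1 : co γ = cr co h.P i - cr co h.P j := by
        ext x
        have h2 : ∀ l, cr co h.P l x = B x (rho h.P l) := by
          intro l
          cases l with
          | none =>
            change (0 : Module.Dual K M) x = B x (0 : M)
            rw [LinearMap.zero_apply, map_zero]
          | some a => exact hco a.1 (h.mem_P.mp a.2).1 x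
        rw [LinearMap.sub_apply, h2, h2, hco γ hγ, hγ2, map_sub]
      rw [h1, map_sub]
      exact sub_mem (hcr i) (hcr j)
    | zero => rw [map_zero]; exact zero_mem _
    | add a b _ _ ha hb => rw [map_add]; exact add_mem ha hb
    | smul c a _ ha => rw [map_smul]; exact Submodule.smul_mem _ _ ha
  let D : WD L m :=
    { b := F.v.reindex ψ
      t := fun j => F.tor (tt (e.symm j))
      e := fun i j => F.e (rho h.P (e.symm i) - rho h.P (e.symm j))
      odd := by rw [hm]; exact hodd
      three := by rw [hm]; exact h3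
      t_mem := fun j => F.tor_mem _
      e_mem := fun i j hij => F.e_mem _ (rho_sub h hadj _ _ (fun h1 => hij (e.symm.injective h1)))
      e_ne := fun i j hij => F.e_ne _ (rho_sub h hadj _ _ (fun h1 => hij (e.symm.injective h1)))
      t_b := by
        intro j I
        rw [Basis.reindex_apply, F.tor_v, hval]
        have h1 : e.symm j ∈ EE h (ψ.symm I).1 ↔ j ∈ I.1 := by
          rw [hψ I, Finset.mem_map_equiv]
        congr 1
        by_cases h2 : j ∈ I.1
        · rw [if_pos h2, if_pos (h1.mpr h2)]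
        · rw [if_neg h2, if_neg (fun h3 => h2 (h1.mp h3))]
      t_e := by
        intro l i j hij
        rw [F.tor_e _ _ (rho_sub h hadj _ _ (fun h1 => hij (e.symm.injective h1))), map_sub,
          htr, htr]
        congr 1
        have h1 : ∀ a b : Fin (2 * m), (e.symm a = e.symm b) = (a = b) := fun a b =>
          propext e.symm.injective.eq_iff
        simp only [h1]
        ring
      span := by
        refine F.span.trans (Submodule.span_le.mpr ?_)
        rintro _ (⟨c, rfl⟩ | ⟨γ, hγ, rfl⟩)
        · exact Submodule.span_mono Set.subset_union_left (hspan c)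
        · obtain ⟨i, j, hij, hγ2⟩ := exists_rho h hγ
          refine Submodule.subset_span (Or.inr ⟨e i, e j, fun h1 => hij (e.injective h1), ?_⟩)
          rw [hγ2, e.symm_apply_apply, e.symm_apply_apply] }
  refine ⟨m, D, fun i => ?_⟩
  -- the values of another involution
  have hmpos : 0 < m := by omega
  let ε : Option {a // a ∈ h.P} → M := fun l => rho h.P l - (1 / (2 * m : K)) • ∑ k, rho h.P k
  have hmK : (m : K) ≠ 0 := by exact_mod_cast (by omega : m ≠ 0)
  have hx : ∀ x : X, x.1 = ∑ l ∈ EE h x.1, ε l := by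
    intro x
    have h1 : (EE h x.1).card = m := by rw [card_EE h hx0 hP x.2, hm]
    simp only [ε]
    rw [Finset.sum_sub_distrib, Finset.sum_const, h1]
    conv_lhs => rw [weightE F h hco hadj hx0 hP x.2]
    congr 1
    rw [← Nat.cast_smul_eq_nsmul K, smul_smul]
    congr 1
    field_simp
  obtain ⟨a, ha⟩ := signsA (m := m) (by omega) hJ (fun l => t i (ε l)) (by
      rw [← map_sum]
      have h1 : ∑ l, ε l = 0 := by
        simp only [ε]
        rw [Finset.sum_sub_distrib, Finset.sum_const, Finset.card_univ, hJ,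
          ← Nat.cast_smul_eq_nsmul K, smul_smul]
        have h2 : ((2 * m : ℕ) : K) * (1 / (2 * m : K)) = 1 := by
          push_cast
          field_simp
        rw [h2, one_smul, sub_self]
      rw [h1, map_zero]) (by
      intro I hI
      obtain ⟨x, hxI⟩ := hbij.2 ⟨I.map e.toEmbedding, by rw [Finset.card_map]; exact hI⟩
      have h1 : EE h x.1 = I := Finset.map_injective _ (congrArg Subtype.val hxI)
      have h2 := ht i x.1 x.2
      rw [← map_sum, ← h1, ← hx x]
      exact h2)
  refine ⟨e a, ?_⟩
  have hDt : D.t (e a) = F.tor (tt a) := by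
    change F.tor (tt (e.symm (e a))) = _
    rw [e.symm_apply_apply]
  have hti : ∀ x : X, t i x.1 = ∑ l ∈ EE h x.1, t i (ε l) := by
    intro x
    rw [← map_sum, ← hx x]
  rcases ha with ha | ha
  · left
    rw [hDt]
    apply F.v.ext
    intro x
    rw [F.tor_v, F.tor_v, hval, hti, ha _ (by rw [card_EE h hx0 hP x.2, hm])]
  · right
    rw [hDt]
    apply F.v.ext
    intro x
    rw [F.tor_v, LinearMap.neg_apply, F.tor_v, hval, hti,
      ha _ (by rw [card_EE h hx0 hP x.2, hm]), ← neg_smul]
    congr 1
    split_ifs <;> norm_num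

end W

end PR.W43
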